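import Mathlib

/-! Vanishing of `Hom(X, W[j])` along distinguished triangles. -/

namespace Pool.Agent.Hhelper18.DR

open CategoryTheory CategoryTheory.Limits CategoryTheory.Pretriangulated

universe v u

section

variable {D : Type u} [Category.{v} D] [HasZeroObject D] [HasShift D ℤ] [Preadditive D]
  [∀ n : ℤ, (shiftFunctor D n).Additive] [Pretriangulated D]

/-- `Hom(X, W[j]) = 0`. -/
def Van (W X : D) (j : ℤ) : Prop := ∀ f : X ⟶ W⟦j⟧, f = 0

variable {W : D}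

omit [HasZeroObject D] [∀ n : ℤ, (shiftFunctor D n).Additive] [Pretriangulated D] in
theorem Van.of_iso {X Y : D} (e : X ≅ Y) {j : ℤ} (h : Van W X j) : Van W Y j := by
  intro f
  have h1 := h (e.hom ≫ f)
  rw [← cancel_epi e.hom, h1, comp_zero]

omit [HasZeroObject D] [∀ n : ℤ, (shiftFunctor D n).Additive] [Pretriangulated D] in
theorem Van.of_isZero {X : D} (h : IsZero X) (j : ℤ) : Van W X j := fun _ => h.eq_of_src _ _

theorem Van.mid {T : Triangle D} (hT : T ∈ distTriang D) {j : ℤ} (h1 : Van W T.obj₁ j)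
    (h3 : Van W T.obj₃ j) : Van W T.obj₂ j := by
  intro f
  obtain ⟨g, rfl⟩ := Triangle.yoneda_exact₂ T hT f (h1 _)
  rw [h3 g, comp_zero]

theorem Van.right {T : Triangle D} (hT : T ∈ distTriang D) {j j' : ℤ} (hj : j + 1 = j')
    (h1 : Van W T.obj₁ j) (h2 : Van W T.obj₂ j') : Van W T.obj₃ j' := by
  intro f
  obtain ⟨g, rfl⟩ := Triangle.yoneda_exact₃ T hT f (h2 _)
  obtain ⟨g', hg'⟩ := (shiftFunctor D (1 : ℤ)).map_surjective
    (g ≫ ((shiftFunctorAdd' D j 1 j' hj).hom.app W))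
  have h4 : g ≫ ((shiftFunctorAdd' D j 1 j' hj).hom.app W) = 0 := by
    rw [← hg', h1 g', Functor.map_zero]
  have h5 : g = 0 := by
    rw [← cancel_mono ((shiftFunctorAdd' D j 1 j' hj).hom.app W), h4, zero_comp]
  rw [h5, comp_zero]

theorem Van.left {T : Triangle D} (hT : T ∈ distTriang D) {j j' : ℤ} (hj : j + 1 = j')
    (h2 : Van W T.obj₂ j) (h3 : Van W T.obj₃ j') : Van W T.obj₁ j := by
  intro f
  have h4 : T.mor₃ ≫ f⟦(1 : ℤ)⟧' = 0 := by
    rw [← cancel_mono ((shiftFunctorAdd' D j 1 j' hj).inv.app W), zero_comp]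
    exact h3 _
  obtain ⟨g, hg⟩ : ∃ g : T.obj₂⟦(1 : ℤ)⟧ ⟶ (W⟦j⟧)⟦(1 : ℤ)⟧, f⟦(1 : ℤ)⟧' =
      (-T.mor₁⟦(1 : ℤ)⟧') ≫ g :=
    Triangle.yoneda_exact₃ T.rotate (rot_of_distTriang _ hT) (f⟦(1 : ℤ)⟧') h4
  obtain ⟨g', rfl⟩ := (shiftFunctor D (1 : ℤ)).map_surjective g
  rw [h2 g', Functor.map_zero, comp_zero] at hg
  exact (shiftFunctor D (1 : ℤ)).map_injective (hg.trans (Functor.map_zero _ _ _).symm)

end

end Pool.Agent.Hhelper18.DR
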