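import Mathlib
import Pool.Agent.Hhelper18.DR.Derived

/-! Complexes of modules in nonnegative degrees, and their images in the derived category. -/

namespace Pool.Agent.Hhelper18.DR

open CategoryTheory CategoryTheory.Limits CategoryTheory.Pretriangulated HomologicalComplex
open scoped ZeroObject

universe w

section

variable {B : Type} [CommRing B]

theorem exactAt_succ (K : CochainComplex (ModuleCat.{0} B) ℕ) (n : ℕ)
    (h : ∀ x : K.X (n + 1), K.d (n + 1) (n + 2) x = 0 → ∃ y : K.X n, K.d n (n + 1) y = x) :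
    K.ExactAt (n + 1) := by
  rw [K.exactAt_iff' n (n + 1) (n + 2) (by simp) (by simp), ShortComplex.moduleCat_exact_iff]
  exact h

theorem exactAt_zero (K : CochainComplex (ModuleCat.{0} B) ℕ)
    (h : ∀ x : K.X 0, K.d 0 1 x = 0 → x = 0) : K.ExactAt 0 := by
  rw [K.exactAt_iff' 0 0 1 (by simp) (by simp), ShortComplex.moduleCat_exact_iff]
  intro x hx
  refine ⟨0, ?_⟩
  rw [map_zero]
  exact (h x hx).symm

/-- extension to a complex indexed by `ℤ` -/
noncomputable abbrev ext (K : CochainComplex (ModuleCat.{0} B) ℕ) :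
    CochainComplex (ModuleCat.{0} B) ℤ := K.extend ComplexShape.embeddingUpNat

theorem shortExact_ext {S : ShortComplex (CochainComplex (ModuleCat.{0} B) ℕ)}
    (hS : S.ShortExact) :
    (S.map (ComplexShape.embeddingUpNat.extendFunctor (ModuleCat.{0} B))).ShortExact := by
  refine shortExact_of_degreewise_shortExact _ (fun i => ?_)
  by_cases hi : ∃ n : ℕ, ComplexShape.embeddingUpNat.f n = i
  · obtain ⟨n, hn⟩ := hi
    refine ShortComplex.shortExact_of_iso (S₁ := S.map (eval _ _ n)) ?_
      ((shortExact_iff_degreewise_shortExact S).1 hS n)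
    refine ShortComplex.isoMk (extendXIso S.X₁ ComplexShape.embeddingUpNat hn).symm
      (extendXIso S.X₂ ComplexShape.embeddingUpNat hn).symm
      (extendXIso S.X₃ ComplexShape.embeddingUpNat hn).symm ?_ ?_
    · change (extendXIso S.X₁ ComplexShape.embeddingUpNat hn).inv ≫
        (extendMap S.f ComplexShape.embeddingUpNat).f i =
          S.f.f n ≫ (extendXIso S.X₂ ComplexShape.embeddingUpNat hn).inv
      rw [extendMap_f _ _ hn, Iso.inv_hom_id_assoc]
    · change (extendXIso S.X₂ ComplexShape.embeddingUpNat hn).inv ≫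
        (extendMap S.g ComplexShape.embeddingUpNat).f i =
          S.g.f n ≫ (extendXIso S.X₃ ComplexShape.embeddingUpNat hn).inv
      rw [extendMap_f _ _ hn, Iso.inv_hom_id_assoc]
  · push Not at hi
    have z1 : IsZero ((S.X₁.extend ComplexShape.embeddingUpNat).X i) :=
      isZero_extend_X _ _ _ hi
    have z2 : IsZero ((S.X₂.extend ComplexShape.embeddingUpNat).X i) :=
      isZero_extend_X _ _ _ hi
    have z3 : IsZero ((S.X₃.extend ComplexShape.embeddingUpNat).X i) :=
      isZero_extend_X _ _ _ hi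
    exact { exact := ShortComplex.exact_of_isZero_X₂ _ z2
            mono_f := ⟨fun _ _ _ => z1.eq_of_tgt _ _⟩
            epi_g := ⟨fun _ _ _ => z3.eq_of_src _ _⟩ }

theorem acyclic_ext (K : CochainComplex (ModuleCat.{0} B) ℕ) (h : ∀ n, K.ExactAt n) :
    (ext K).Acyclic := by
  intro i
  by_cases hi : ∃ n : ℕ, ComplexShape.embeddingUpNat.f n = i
  · obtain ⟨n, hn⟩ := hi
    exact (extend_exactAt_iff K ComplexShape.embeddingUpNat hn).2 (h n)
  · push Not at hi
    exact extend_exactAt K _ i hi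

variable [HasDerivedCategory.{w} (ModuleCat.{0} B)]

theorem isZero_Q_of_acyclic (K : CochainComplex (ModuleCat.{0} B) ℤ) (h : K.Acyclic) :
    IsZero (DerivedCategory.Q.obj K) := by
  have hz : IsZero (0 : CochainComplex (ModuleCat.{0} B) ℤ) := isZero_zero _
  have hq : QuasiIso (0 : K ⟶ 0) := by
    rw [quasiIso_iff]
    intro i
    rw [quasiIsoAt_iff_exactAt _ _ (h i)]
    exact acyclic_of_isZero _ hz i
  have hQ : IsZero (DerivedCategory.Q.obj (0 : CochainComplex (ModuleCat.{0} B) ℤ)) :=
    DerivedCategory.Q.map_isZero hz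
  exact hQ.of_iso (asIso (DerivedCategory.Q.map (0 : K ⟶ 0)))

/-- the image in the derived category -/
noncomputable abbrev QN (K : CochainComplex (ModuleCat.{0} B) ℕ) :
    DerivedCategory (ModuleCat.{0} B) := DerivedCategory.Q.obj (ext K)

variable {W : DerivedCategory (ModuleCat.{0} B)}

/-- the triangle of a short exact sequence -/
noncomputable abbrev tri {S : ShortComplex (CochainComplex (ModuleCat.{0} B) ℕ)}
    (hS : S.ShortExact) : Triangle (DerivedCategory (ModuleCat.{0} B)) :=
  DerivedCategory.triangleOfSES (shortExact_ext hS)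

theorem van_mid {S : ShortComplex (CochainComplex (ModuleCat.{0} B) ℕ)} (hS : S.ShortExact)
    {j : ℤ} (h1 : Van W (QN S.X₁) j) (h3 : Van W (QN S.X₃) j) : Van W (QN S.X₂) j :=
  Van.mid (DerivedCategory.triangleOfSES_distinguished (shortExact_ext hS)) h1 h3

theorem van_left {S : ShortComplex (CochainComplex (ModuleCat.{0} B) ℕ)} (hS : S.ShortExact)
    {j : ℤ} (h2 : Van W (QN S.X₂) j) (h3 : Van W (QN S.X₃) (j + 1)) : Van W (QN S.X₁) j :=
  Van.left (DerivedCategory.triangleOfSES_distinguished (shortExact_ext hS)) rfl h2 h3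

theorem van_right {S : ShortComplex (CochainComplex (ModuleCat.{0} B) ℕ)} (hS : S.ShortExact)
    {j : ℤ} (h1 : Van W (QN S.X₁) j) (h2 : Van W (QN S.X₂) (j + 1)) :
    Van W (QN S.X₃) (j + 1) :=
  Van.right (DerivedCategory.triangleOfSES_distinguished (shortExact_ext hS)) rfl h1 h2

/-- Elementwise criterion for a degreewise injective map to be a quasi-isomorphism. -/
structure QI {K L : CochainComplex (ModuleCat.{0} B) ℕ} (f : K ⟶ L) : Prop where
  inj : ∀ n, Function.Injective (f.f n)
  zero : ∀ (z : L.X 0) (w : K.X 1), L.d 0 1 z = f.f 1 w → ∃ x : K.X 0, f.f 0 x = z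
  succ : ∀ (n : ℕ) (z : L.X (n + 1)) (w : K.X (n + 2)), L.d (n + 1) (n + 2) z = f.f (n + 2) w →
    ∃ (y : L.X n) (x : K.X (n + 1)), L.d n (n + 1) y + f.f (n + 1) x = z

omit [HasDerivedCategory.{w} (ModuleCat.{0} B)] in
theorem shortExact_of_elements {S : ShortComplex (CochainComplex (ModuleCat.{0} B) ℕ)}
    (h1 : ∀ n, Function.Injective (S.f.f n)) (h2 : ∀ n, Function.Surjective (S.g.f n))
    (h3 : ∀ n (x : S.X₂.X n), S.g.f n x = 0 → ∃ y : S.X₁.X n, S.f.f n y = x) :
    S.ShortExact := by
  refine shortExact_of_degreewise_shortExact _ (fun i => ?_)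
  exact { exact := (ShortComplex.moduleCat_exact_iff _).2 (h3 i)
          mono_f := (ModuleCat.mono_iff_injective _).2 (h1 i)
          epi_g := (ModuleCat.epi_iff_surjective _).2 (h2 i) }

omit [HasDerivedCategory.{w} (ModuleCat.{0} B)] in
theorem elements_of_shortExact {S : ShortComplex (CochainComplex (ModuleCat.{0} B) ℕ)}
    (hS : S.ShortExact) (n : ℕ) : Function.Surjective (S.g.f n) ∧
      ∀ (x : S.X₂.X n), S.g.f n x = 0 → ∃ y : S.X₁.X n, S.f.f n y = x := by
  have h := (shortExact_iff_degreewise_shortExact S).1 hS n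
  exact ⟨(ModuleCat.epi_iff_surjective _).1 h.epi_g,
    (ShortComplex.moduleCat_exact_iff _).1 h.exact⟩

theorem QI.ses {K L : CochainComplex (ModuleCat.{0} B) ℕ} {f : K ⟶ L} (h : QI f) :
    ∃ (S : ShortComplex (CochainComplex (ModuleCat.{0} B) ℕ)) (_ : S.ShortExact),
      S.X₁ = K ∧ S.X₂ = L ∧ IsZero (QN S.X₃) := by
  have hm : Mono f := by
    have : ∀ i, Mono (f.f i) := fun i => (ModuleCat.mono_iff_injective _).2 (h.inj i)
    exact mono_of_mono_f f this
  let S : ShortComplex (CochainComplex (ModuleCat.{0} B) ℕ) :=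
    ShortComplex.mk f (cokernel.π f) (cokernel.condition f)
  have hS : S.ShortExact := { exact := ShortComplex.exact_cokernel f
                              mono_f := hm
                              epi_g := inferInstanceAs (Epi (cokernel.π f)) }
  refine ⟨S, hS, rfl, rfl, isZero_Q_of_acyclic _ (acyclic_ext _ (fun n => ?_))⟩
  have hfg : ∀ n (x : K.X n), S.g.f n (f.f n x) = 0 := by
    intro n x
    have h1 : f.f n ≫ S.g.f n = 0 := by
      rw [← comp_f, S.zero]; rfl
    have h2 := congrArg (fun (φ : K.X n ⟶ S.X₃.X n) => φ x) h1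
    exact h2
  have hcomm : ∀ n (x : L.X n), S.g.f (n + 1) (L.d n (n + 1) x) =
      S.X₃.d n (n + 1) (S.g.f n x) := by
    intro n x
    have h1 := S.g.comm n (n + 1)
    have h2 := congrArg (fun (φ : L.X n ⟶ S.X₃.X (n + 1)) => φ x) h1
    exact h2.symm
  cases n with
  | zero =>
    refine exactAt_zero _ (fun x hx => ?_)
    obtain ⟨z, rfl⟩ := (elements_of_shortExact hS 0).1 x
    rw [← hcomm] at hx
    obtain ⟨w, hw⟩ := (elements_of_shortExact hS 1).2 _ hx
    obtain ⟨x, rfl⟩ := h.zero z w hw.symm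
    exact hfg _ _
  | succ n =>
    refine exactAt_succ _ n (fun x hx => ?_)
    obtain ⟨z, rfl⟩ := (elements_of_shortExact hS (n + 1)).1 x
    rw [← hcomm] at hx
    obtain ⟨w, hw⟩ := (elements_of_shortExact hS (n + 2)).2 _ hx
    obtain ⟨y, x, rfl⟩ := h.succ n z w hw.symm
    refine ⟨S.g.f n y, ?_⟩
    rw [← hcomm, map_add]
    exact (add_eq_left.2 (hfg _ _)).symm

theorem QI.van {K L : CochainComplex (ModuleCat.{0} B) ℕ} {f : K ⟶ L} (h : QI f) (j : ℤ) :
    Van W (QN K) j ↔ Van W (QN L) j := by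
  obtain ⟨S, hS, rfl, rfl, h3⟩ := h.ses
  exact ⟨fun h1 => van_mid hS h1 (Van.of_isZero h3 _),
    fun h2 => van_left hS h2 (Van.of_isZero h3 _)⟩

end

end Pool.Agent.Hhelper18.DR
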