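import Mathlib
import Pool.Agent.Hhelper18.DR.Cpx
import Pool.Agent.Hhelper18.DB.Cech

/-! Čech complexes of modules. -/

namespace Pool.Agent.Hhelper18.DR

open CategoryTheory CategoryTheory.Limits HomologicalComplex Pool.Agent.Hhelper18.DB

universe w

section

variable {B : Type} [CommRing B] {ι : Type} [DecidableEq ι]
variable {V V' V'' : Type} [AddCommGroup V] [Module B V] [AddCommGroup V'] [Module B V']
  [AddCommGroup V''] [Module B V'']

/-- Čech cochains with values in a family of submodules -/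
def Co (P : Finset ι → Submodule B V) (n : ℕ) : Submodule B ((Fin (n + 1) → ι) → V) where
  carrier := {φ | ∀ s, φ s ∈ P (img s)}
  zero_mem' := fun _ => Submodule.zero_mem _
  add_mem' := fun ha hb s => Submodule.add_mem _ (ha s) (hb s)
  smul_mem' := fun c _ ha s => Submodule.smul_mem _ c (ha s)

theorem mem_Co {P : Finset ι → Submodule B V} {n : ℕ} {φ : (Fin (n + 1) → ι) → V} :
    φ ∈ Co P n ↔ ∀ s, φ s ∈ P (img s) := Iff.rfl

variable (B) in
/-- the Čech differential as a linear map -/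
def cdL (n : ℕ) : ((Fin (n + 1) → ι) → V) →ₗ[B] ((Fin (n + 2) → ι) → V) where
  toFun := cd n
  map_add' := cd_add n
  map_smul' c φ := by
    funext s
    simp only [cd, Pi.smul_apply, RingHom.id_apply, Finset.smul_sum]
    exact Finset.sum_congr rfl (fun k _ => smul_comm _ _ _)

/-- A monotone family. -/
def MonoF (P : Finset ι → Submodule B V) : Prop := ∀ S T, S ⊆ T → P S ≤ P T

theorem cd_mem_Co {P : Finset ι → Submodule B V} (hP : MonoF P) {n : ℕ}
    {φ : (Fin (n + 1) → ι) → V} (h : φ ∈ Co P n) : cd n φ ∈ Co P (n + 1) := by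
  intro s
  refine Submodule.sum_mem _ (fun k _ => Submodule.smul_of_tower_mem _ _ ?_)
  exact hP _ _ (img_comp_subset s _) (h _)

/-- the Čech differential on cochains -/
def cdP (P : Finset ι → Submodule B V) (hP : MonoF P) (n : ℕ) : Co P n →ₗ[B] Co P (n + 1) :=
  (cdL B n).restrict (fun _ h => cd_mem_Co hP h)

/-- The Čech complex. -/
noncomputable def cech (P : Finset ι → Submodule B V) (hP : MonoF P) :
    CochainComplex (ModuleCat.{0} B) ℕ :=
  CochainComplex.of (fun n => ModuleCat.of B (Co P n)) (fun n => ModuleCat.ofHom (cdP P hP n))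
    (fun n => by
      ext φ : 2
      exact Subtype.ext (cd_cd n φ.1))

/-- a cochain as an element of the complex -/
def toX {P : Finset ι → Submodule B V} {hP : MonoF P} {n : ℕ} (φ : Co P n) :
    (cech P hP).X n := φ

/-- an element of the complex as a cochain -/
def ofX {P : Finset ι → Submodule B V} {hP : MonoF P} {n : ℕ} (x : (cech P hP).X n) :
    Co P n := x

theorem cech_d_eq (P : Finset ι → Submodule B V) (hP : MonoF P) (n : ℕ) :
    (cech P hP).d n (n + 1) = ModuleCat.ofHom (cdP P hP n) :=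
  CochainComplex.of_d (fun n => ModuleCat.of B (Co P n)) (fun n => ModuleCat.ofHom (cdP P hP n)) n

omit [DecidableEq ι] in
theorem cd_zero_apply (φ : (Fin 1 → ι) → V) (s : Fin 2 → ι) :
    cd 0 φ s = φ (s ∘ (0 : Fin 2).succAbove) - φ (s ∘ (1 : Fin 2).succAbove) := by
  have h : cd 0 φ s = ∑ k : Fin 2, (-1 : ℤ) ^ (k : ℕ) • φ (s ∘ k.succAbove) := rfl
  rw [h, Fin.sum_univ_two]
  simp [sub_eq_add_neg]

omit [DecidableEq ι] in
theorem cd_zero_const {z : (Fin 1 → ι) → V} (h : cd 0 z = 0) (s t : Fin 1 → ι) : z s = z t := by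
  have h4 := congrFun h (fun k => if k = 0 then t 0 else s 0)
  rw [cd_zero_apply] at h4
  have e1 : (fun k : Fin 2 => if k = 0 then t 0 else s 0) ∘ (0 : Fin 2).succAbove = s := by
    funext k
    have : k = 0 := Subsingleton.elim _ _
    subst this
    simp
  have e2 : (fun k : Fin 2 => if k = 0 then t 0 else s 0) ∘ (1 : Fin 2).succAbove = t := by
    funext k
    have : k = 0 := Subsingleton.elim _ _
    subst this
    simp
  rw [e1, e2] at h4
  exact sub_eq_zero.1 h4

theorem iso_inv_hom {X Y : ModuleCat.{0} B} (e : X ≅ Y) (x : X) : e.inv (e.hom x) = x :=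
  congrArg (fun (φ : X ⟶ X) => φ x) e.hom_inv_id

theorem iso_hom_inv {X Y : ModuleCat.{0} B} (e : X ≅ Y) (y : Y) : e.hom (e.inv y) = y :=
  congrArg (fun (φ : Y ⟶ Y) => φ y) e.inv_hom_id

theorem cech_d {P : Finset ι → Submodule B V} {hP : MonoF P} {n : ℕ} (x : (cech P hP).X n) :
    ((cech P hP).d n (n + 1)) x = toX ⟨cd n (ofX x).1, cd_mem_Co hP (ofX x).2⟩ := by
  rw [cech_d_eq]
  rfl

/-- maps of Čech complexes -/
noncomputable def cechMap {P : Finset ι → Submodule B V} (hP : MonoF P)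
    {P' : Finset ι → Submodule B V'} (hP' : MonoF P') (f : V →ₗ[B] V')
    (hf : ∀ S, S.Nonempty → ∀ x ∈ P S, f x ∈ P' S) : cech P hP ⟶ cech P' hP' :=
  CochainComplex.ofHom
    (fun n => ModuleCat.ofHom (X := Co P n) (Y := Co P' n) ((f.compLeft (Fin (n + 1) → ι)).restrict
      (fun _ h s => hf _ (img_nonempty s) _ (h s))))
    (fun n => by
      rw [cech_d_eq, cech_d_eq]
      ext φ : 2
      exact Subtype.ext (cd_map n f.toAddMonoidHom φ.1))

theorem cechMap_f {P : Finset ι → Submodule B V} {hP : MonoF P}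
    {P' : Finset ι → Submodule B V'} {hP' : MonoF P'} {f : V →ₗ[B] V'}
    {hf : ∀ S, S.Nonempty → ∀ x ∈ P S, f x ∈ P' S} {n : ℕ} (x : (cech P hP).X n) :
    ((cechMap hP hP' f hf).f n) x =
      toX ⟨fun s => f ((ofX x).1 s), fun s => hf _ (img_nonempty s) _ ((ofX x).2 s)⟩ := rfl

theorem cech_ses {P : Finset ι → Submodule B V} (hP : MonoF P)
    {P' : Finset ι → Submodule B V'} (hP' : MonoF P') {P'' : Finset ι → Submodule B V''}
    (hP'' : MonoF P'') (f : V →ₗ[B] V') (g : V' →ₗ[B] V'')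
    (hf : ∀ S, S.Nonempty → ∀ x ∈ P S, f x ∈ P' S)
    (hinj : Function.Injective f)
    (hg : ∀ S, S.Nonempty → ∀ x ∈ P' S, g x ∈ P'' S)
    (hsurj : ∀ S, S.Nonempty → ∀ y ∈ P'' S, ∃ x ∈ P' S, g x = y)
    (hex : ∀ S, S.Nonempty → ∀ y ∈ P' S, g y = 0 → ∃ x ∈ P S, f x = y)
    (h0 : ∀ S, S.Nonempty → ∀ x ∈ P S, g (f x) = 0) :
    ∃ (S : ShortComplex (CochainComplex (ModuleCat.{0} B) ℕ)) (_ : S.ShortExact),
      S.X₁ = cech P hP ∧ S.X₂ = cech P' hP' ∧ S.X₃ = cech P'' hP'' := by
  refine ⟨ShortComplex.mk (cechMap hP hP' f hf) (cechMap hP' hP'' g hg) ?_,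
    shortExact_of_elements ?_ ?_ ?_, rfl, rfl, rfl⟩
  · refine HomologicalComplex.hom_ext _ _ (fun n => ModuleCat.hom_ext (LinearMap.ext (fun x => ?_)))
    exact Subtype.ext (funext (fun s => h0 _ (img_nonempty s) _ ((ofX x).2 s)))
  · intro n x y hxy
    refine Subtype.ext (funext (fun s => hinj ?_))
    exact congrFun (congrArg Subtype.val hxy) s
  · intro n y
    choose x hx hxy using fun s => hsurj _ (img_nonempty s) _ ((ofX y).2 s)
    exact ⟨toX ⟨x, hx⟩, Subtype.ext (funext hxy)⟩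
  · intro n y hy
    have hy' : ∀ s, g ((ofX y).1 s) = 0 := fun s => congrFun (congrArg Subtype.val hy) s
    choose x hx hxy using fun s => hex _ (img_nonempty s) _ ((ofX y).2 s) (hy' s)
    exact ⟨toX ⟨x, hx⟩, Subtype.ext (funext hxy)⟩

/-- The same family as a family of subgroups. -/
def grp (P : Finset ι → Submodule B V) : Finset ι → AddSubgroup V := fun S => (P S).toAddSubgroup

/-- an inclusion of families is a quasi-isomorphism if the complement is acyclic -/
theorem QI_incl {P : Finset ι → Submodule B V} (hP : MonoF P)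
    {P' : Finset ι → Submodule B V} (hP' : MonoF P') (hle : ∀ S, P S ≤ P' S)
    (h0 : ∀ z ∈ Co P' 0, cd 0 z ∈ Co P 1 → z ∈ Co P 0)
    (h1 : ∀ n, ∀ z ∈ Co P' (n + 1), cd (n + 1) z ∈ Co P (n + 2) →
      ∃ y ∈ Co P' n, z - cd n y ∈ Co P (n + 1)) :
    QI (cechMap hP hP' LinearMap.id (fun S _ _ hx => hle S hx)) := by
  refine ⟨?_, ?_, ?_⟩
  · intro n x y hxy
    refine Subtype.ext (funext (fun s => ?_))
    exact congrFun (congrArg Subtype.val hxy) s
  · intro z w hw
    rw [cech_d, cechMap_f] at hw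
    have h2 : cd 0 (ofX z).1 = (ofX w).1 := congrArg Subtype.val hw
    have h3 := h0 _ (ofX z).2 (by rw [h2]; exact (ofX w).2)
    exact ⟨toX ⟨_, h3⟩, rfl⟩
  · intro n z w hw
    rw [cech_d, cechMap_f] at hw
    have h2 : cd (n + 1) (ofX z).1 = (ofX w).1 := congrArg Subtype.val hw
    obtain ⟨y, hy, h3⟩ := h1 n _ (ofX z).2 (by rw [h2]; exact (ofX w).2)
    refine ⟨toX ⟨y, hy⟩, toX ⟨_, h3⟩, ?_⟩
    rw [cech_d, cechMap_f]
    refine Subtype.ext ?_
    change cd n y + ((ofX z).1 - cd n y) = (ofX z).1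
    abel

/-- the module of constant cochains -/
theorem QI_const {P : Finset ι → Submodule B V} (hP : MonoF P) (M : Submodule B V) (j0 : ι)
    (hM : ∀ v, v ∈ M ↔ ∀ i : ι, v ∈ P {i}) (hle : ∀ S, M ≤ P S)
    (hac : ∀ n, Acyc (grp P) n) :
    ∃ f : (HomologicalComplex.single (ModuleCat.{0} B) (ComplexShape.up ℕ) 0).obj
      (ModuleCat.of B M) ⟶ cech P hP, QI f := by
  let φ : ModuleCat.of B M ⟶ (cech P hP).X 0 := ModuleCat.ofHom (Y := Co P 0)
    { toFun := fun v => ⟨fun _ => v.1, fun s => hle _ v.2⟩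
      map_add' := fun _ _ => rfl
      map_smul' := fun _ _ => rfl }
  have hφ : φ ≫ (cech P hP).d 0 1 = 0 := by
    rw [cech_d_eq P hP 0]
    ext v : 2
    refine Subtype.ext (funext (fun s => ?_))
    change cd 0 (fun _ => v.1) s = 0
    rw [cd_zero_apply, sub_self]
  have hsrc : ∀ n, Subsingleton (((HomologicalComplex.single (ModuleCat.{0} B)
      (ComplexShape.up ℕ) 0).obj (ModuleCat.of B M)).X (n + 1)) := by
    intro n
    exact ModuleCat.subsingleton_of_isZero (isZero_single_obj_X _ _ _ _ (by simp))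
  refine ⟨mkHomFromSingle φ (fun k hk => ?_), ?_, ?_, ?_⟩
  · have : k = 1 := by simpa using hk.symm
    subst this
    exact hφ
  · intro n
    cases n with
    | zero =>
      rw [mkHomFromSingle_f]
      intro x y hxy
      have h1 : φ ((singleObjXSelf (ComplexShape.up ℕ) 0 (ModuleCat.of B M)).hom x) =
        φ ((singleObjXSelf (ComplexShape.up ℕ) 0 (ModuleCat.of B M)).hom y) := hxy
      have h2 := congrFun (congrArg Subtype.val h1) (fun _ => j0)
      have h3 : (singleObjXSelf (ComplexShape.up ℕ) 0 (ModuleCat.of B M)).hom x =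
        (singleObjXSelf (ComplexShape.up ℕ) 0 (ModuleCat.of B M)).hom y := Subtype.ext h2
      have h4 := congrArg (fun z => (singleObjXSelf (ComplexShape.up ℕ) 0
        (ModuleCat.of B M)).inv z) h3
      exact (iso_inv_hom _ x).symm.trans (h4.trans (iso_inv_hom _ y))
    | succ n =>
      have := hsrc n
      exact Function.injective_of_subsingleton _
  · intro z w hw
    have h0 : w = 0 := by
      have := hsrc 0
      exact Subsingleton.elim _ _
    rw [h0, map_zero, cech_d] at hw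
    have h2 : cd 0 (ofX z).1 = 0 := congrArg Subtype.val hw
    have h3 : ∀ s t : Fin 1 → ι, (ofX z).1 s = (ofX z).1 t := cd_zero_const h2
    have hv : (ofX z).1 (fun _ => j0) ∈ M := by
      rw [hM]
      intro i
      rw [h3 _ (fun _ => i)]
      have := (ofX z).2 (fun _ => i)
      have hi : img (fun _ : Fin 1 => i) = {i} := by
        ext x; simp [img, eq_comm]
      rw [hi] at this
      exact this
    refine ⟨(singleObjXSelf (ComplexShape.up ℕ) 0 (ModuleCat.of B M)).inv
      (⟨_, hv⟩ : M), ?_⟩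
    rw [mkHomFromSingle_f]
    have h5 : φ ((singleObjXSelf (ComplexShape.up ℕ) 0 (ModuleCat.of B M)).hom
      ((singleObjXSelf (ComplexShape.up ℕ) 0 (ModuleCat.of B M)).inv (⟨_, hv⟩ : M))) = z := by
      have h6 : (singleObjXSelf (ComplexShape.up ℕ) 0 (ModuleCat.of B M)).hom
        ((singleObjXSelf (ComplexShape.up ℕ) 0 (ModuleCat.of B M)).inv (⟨_, hv⟩ : M)) =
          (⟨_, hv⟩ : M) := iso_hom_inv _ _
      rw [h6]
      exact Subtype.ext (funext (fun s => h3 _ _))
    exact h5
  · intro n z w hw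
    have h0 : w = 0 := by
      have := hsrc (n + 1)
      exact Subsingleton.elim _ _
    rw [h0, map_zero, cech_d] at hw
    have h2 : cd (n + 1) (ofX z).1 = 0 := congrArg Subtype.val hw
    obtain ⟨ψ, hψ, hψ'⟩ := hac n (ofX z).1 (ofX z).2 h2
    refine ⟨toX ⟨ψ, hψ⟩, 0, ?_⟩
    rw [map_zero, add_zero, cech_d]
    exact Subtype.ext hψ'

end

end Pool.Agent.Hhelper18.DR
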