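import Mathlib

/-! `Ext^N(B/(y₀,…,y_{N-1}), B) ≠ 0` for a polynomial ring `B` in `N` variables. -/

namespace Pool.Agent.Hhelper18.DR

open CategoryTheory CategoryTheory.Limits Abelian

section

variable (N : ℕ)

/-- polynomials in `N` variables -/
abbrev PN := MvPolynomial (Fin N) ℂ

/-- the ideal of the first `k` variables -/
noncomputable def Ik (k : ℕ) : Ideal (PN N) := Ideal.span (MvPolynomial.X '' {i : Fin N | (i : ℕ) < k})

/-- the ideal of the remaining variables -/
noncomputable def Jk (k : ℕ) : Ideal (PN N) := Ideal.span (MvPolynomial.X '' {i : Fin N | k ≤ (i : ℕ)})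

/-- the quotient by the first `k` variables -/
noncomputable abbrev Mk (k : ℕ) : ModuleCat.{0} (PN N) := ModuleCat.of (PN N) (PN N ⧸ Ik N k)

variable {N}

theorem Ik_le (k : ℕ) : Ik N k ≤ Ik N (k + 1) :=
  Ideal.span_mono (Set.image_mono (fun i (hi : (i : ℕ) < k) => Nat.lt_succ_of_lt hi))

theorem Ik_succ {k : ℕ} (hk : k < N) :
    Ik N (k + 1) = Ideal.span {MvPolynomial.X ⟨k, hk⟩} ⊔ Ik N k := by
  rw [Ik, Ik, ← Ideal.span_union, ← Set.image_singleton, ← Set.image_union]
  congr 2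
  ext i
  simp only [Set.mem_ofPred_eq, Set.mem_union, Set.mem_singleton_iff, Fin.ext_iff]
  omega

theorem Jk_eq {k : ℕ} (hk : k < N) :
    Jk N k = Ideal.span {MvPolynomial.X ⟨k, hk⟩} ⊔ Jk N (k + 1) := by
  rw [Jk, Jk, ← Ideal.span_union, ← Set.image_singleton, ← Set.image_union]
  congr 2
  ext i
  simp only [Set.mem_ofPred_eq, Set.mem_union, Set.mem_singleton_iff, Fin.ext_iff]
  omega

theorem Ik_zero : Ik N 0 = ⊥ := by
  rw [Ik]
  have : {i : Fin N | (i : ℕ) < 0} = ∅ := by ext; simp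
  rw [this, Set.image_empty, Ideal.span_empty]

theorem Jk_last : Jk N N = ⊥ := by
  rw [Jk]
  have : {i : Fin N | N ≤ (i : ℕ)} = ∅ := by
    ext i
    have := i.2
    simp
  rw [this, Set.image_empty, Ideal.span_empty]

theorem mul_mem_Ik {k : ℕ} (hk : k < N) {f : PN N} (h : MvPolynomial.X ⟨k, hk⟩ * f ∈ Ik N k) :
    f ∈ Ik N k := by
  classical
  rw [Ik, MvPolynomial.mem_ideal_span_X_image] at h ⊢
  intro m hm
  have h1 : m + Finsupp.single (⟨k, hk⟩ : Fin N) 1 ∈
      (MvPolynomial.X ⟨k, hk⟩ * f : PN N).support := by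
    rw [MvPolynomial.mem_support_iff, add_comm, MvPolynomial.coeff_X_mul]
    exact MvPolynomial.mem_support_iff.1 hm
  obtain ⟨i, hi, hi'⟩ := h _ h1
  refine ⟨i, hi, ?_⟩
  rw [Finsupp.add_apply, Finsupp.single_apply, if_neg] at hi'
  · simpa using hi'
  · intro h2
    rw [← h2] at hi
    exact lt_irrefl k hi

/-- the short exact sequence `M_k → M_k → M_{k+1}` -/
noncomputable def SC {k : ℕ} (hk : k < N) : ShortComplex (ModuleCat.{0} (PN N)) :=
  ShortComplex.mk ((MvPolynomial.X ⟨k, hk⟩ : PN N) • 𝟙 (Mk N k))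
    (ModuleCat.ofHom (Submodule.factor (Ik_le (N := N) k)) : Mk N k ⟶ Mk N (k + 1)) (by
      refine ModuleCat.hom_ext (LinearMap.ext (fun x => ?_))
      obtain ⟨f, rfl⟩ := Submodule.Quotient.mk_surjective _ x
      change Submodule.factor (Ik_le (N := N) k)
        ((MvPolynomial.X ⟨k, hk⟩ : PN N) • Submodule.Quotient.mk f) = 0
      rw [← Submodule.Quotient.mk_smul]
      change Submodule.Quotient.mk _ = _
      rw [Submodule.Quotient.mk_eq_zero, Ik_succ hk]
      exact Ideal.mem_sup_left (Ideal.mul_mem_right _ _ (Ideal.mem_span_singleton_self _)))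

theorem SC_exact {k : ℕ} (hk : k < N) : (SC hk).ShortExact := by
  refine { exact := (ShortComplex.moduleCat_exact_iff _).2 ?_
           mono_f := (ModuleCat.mono_iff_injective _).2 ?_
           epi_g := (ModuleCat.epi_iff_surjective _).2 ?_ }
  · intro x hx
    obtain ⟨f, rfl⟩ := Submodule.Quotient.mk_surjective _ x
    have h1 : f ∈ Ik N (k + 1) := (Submodule.Quotient.mk_eq_zero _).1 hx
    rw [Ik_succ hk, Submodule.mem_sup] at h1
    obtain ⟨a, ha, b, hb, rfl⟩ := h1
    obtain ⟨c, rfl⟩ := Ideal.mem_span_singleton'.1 ha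
    refine ⟨Submodule.Quotient.mk c, ?_⟩
    change (MvPolynomial.X ⟨k, hk⟩ : PN N) • (Submodule.Quotient.mk c : PN N ⧸ Ik N k) = _
    rw [← Submodule.Quotient.mk_smul, Submodule.Quotient.eq]
    have : (MvPolynomial.X ⟨k, hk⟩ : PN N) • c - (c * MvPolynomial.X ⟨k, hk⟩ + b) = -b := by
      rw [smul_eq_mul]; ring
    rw [this]
    exact Submodule.neg_mem _ hb
  · intro x y hxy
    obtain ⟨f, rfl⟩ := Submodule.Quotient.mk_surjective _ x
    obtain ⟨g, rfl⟩ := Submodule.Quotient.mk_surjective _ y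
    have h1 : (MvPolynomial.X ⟨k, hk⟩ : PN N) • (Submodule.Quotient.mk f : PN N ⧸ Ik N k) =
        (MvPolynomial.X ⟨k, hk⟩ : PN N) • (Submodule.Quotient.mk g : PN N ⧸ Ik N k) := hxy
    rw [← Submodule.Quotient.mk_smul, ← Submodule.Quotient.mk_smul, Submodule.Quotient.eq,
      ← smul_sub] at h1
    exact (Submodule.Quotient.eq _).2 (mul_mem_Ik hk h1)
  · intro y
    obtain ⟨f, rfl⟩ := Submodule.Quotient.mk_surjective _ y
    exact ⟨Submodule.Quotient.mk f, rfl⟩

/-- the ring as a module over itself -/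
noncomputable abbrev W0 (N : ℕ) : ModuleCat.{0} (PN N) := ModuleCat.of (PN N) (PN N)

instance projective_zero : Projective (Mk N 0) := by
  have e : (PN N ⧸ Ik N 0) ≃ₗ[PN N] PN N := Submodule.quotEquivOfEqBot _ Ik_zero
  have : Module.Projective (PN N) (PN N ⧸ Ik N 0) := Module.Projective.of_equiv e.symm
  exact ModuleCat.projective_of_categoryTheory_projective _

theorem ext_above : ∀ k ≤ N, ∀ j, k < j → Subsingleton (Ext (Mk N k) (W0 N) j) := by
  intro k
  induction k with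
  | zero =>
    intro _ j hj
    obtain ⟨j, rfl⟩ := Nat.exists_eq_succ_of_ne_zero hj.ne'
    exact Ext.subsingleton_of_projective _ _ j
  | succ k ih =>
    intro hk j hj
    obtain ⟨j, rfl⟩ : ∃ j', j = j' + 1 := ⟨j - 1, by omega⟩
    have h1 := ih (by omega) j (by omega)
    have h2 := ih (by omega) (j + 1) (by omega)
    have hS := SC_exact (N := N) (k := k) (by omega)
    refine subsingleton_of_forall_eq 0 (fun x => ?_)
    obtain ⟨x₁, rfl⟩ := Ext.contravariant_sequence_exact₃ hS (W0 N) x (h2.elim _ _)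
      (add_comm 1 j)
    have : x₁ = 0 := h1.elim _ _
    rw [this]
    exact Ext.comp_zero ..

theorem ext_ne_aux : ∀ k ≤ N, (Jk N k) • (⊤ : Submodule (PN N) (Ext (Mk N k) (W0 N) k)) ≠ ⊤ := by
  intro k
  induction k with
  | zero =>
    intro _ h
    let e : (PN N ⧸ Ik N 0) ≃ₗ[PN N] PN N := Submodule.quotEquivOfEqBot _ Ik_zero
    let ev : (Mk N 0 ⟶ W0 N) →ₗ[PN N] PN N :=
      { toFun := fun φ => φ.hom (Submodule.Quotient.mk 1)
        map_add' := fun _ _ => rfl
        map_smul' := fun _ _ => rfl }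
    let lam : Ext (Mk N 0) (W0 N) 0 →ₗ[PN N] PN N := ev ∘ₗ Ext.linearEquiv₀.toLinearMap
    have h1 : lam (Ext.mk₀ (ModuleCat.ofHom e.toLinearMap : Mk N 0 ⟶ W0 N)) = 1 := by
      change ev (Ext.linearEquiv₀ _) = 1
      have h2 : Ext.linearEquiv₀ (R := PN N) (Ext.mk₀ (ModuleCat.ofHom e.toLinearMap : Mk N 0 ⟶ W0 N)) =
        (ModuleCat.ofHom e.toLinearMap : Mk N 0 ⟶ W0 N) := by
        exact Ext.linearEquiv₀.apply_symm_apply _
      rw [h2]
      rfl
    have h3 : (1 : PN N) ∈ Jk N 0 := by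
      rw [← h1]
      have h4 : lam (Ext.mk₀ (ModuleCat.ofHom e.toLinearMap : Mk N 0 ⟶ W0 N)) ∈
          (Jk N 0 • (⊤ : Submodule (PN N) (Ext (Mk N 0) (W0 N) 0))).map lam :=
        Submodule.mem_map_of_mem (by rw [h]; trivial)
      rw [Submodule.map_smul''] at h4
      have h5 : Jk N 0 • ((⊤ : Submodule (PN N) (Ext (Mk N 0) (W0 N) 0)).map lam) ≤ Jk N 0 :=
        (Submodule.smul_mono le_rfl le_top).trans (by rw [smul_eq_mul, Ideal.mul_top])
      exact h5 h4
    rw [Jk, MvPolynomial.mem_ideal_span_X_image] at h3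
    obtain ⟨i, _, hi⟩ := h3 0 (by
      rw [MvPolynomial.mem_support_iff, MvPolynomial.coeff_zero_one]
      exact one_ne_zero)
    exact hi rfl
  | succ k ih =>
    intro hk h
    have hk' : k < N := hk
    apply ih (by omega)
    have hS := SC_exact hk'
    have h2 := ext_above (N := N) k hk'.le (k + 1) (Nat.lt_succ_self k)
    let δ : Ext (Mk N k) (W0 N) k →ₗ[PN N] Ext (Mk N (k + 1)) (W0 N) (k + 1) :=
      hS.extClass.precompOfLinear (PN N) (W0 N) (add_comm 1 k)
    have hδ : Function.Surjective δ := by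
      intro x
      obtain ⟨x₁, h3⟩ := Ext.contravariant_sequence_exact₃ hS (W0 N) x (h2.elim _ _)
        (add_comm 1 k)
      exact ⟨x₁, h3⟩
    have hker : LinearMap.ker δ ≤ (Ideal.span {MvPolynomial.X ⟨k, hk'⟩} : Ideal (PN N)) • ⊤ := by
      intro x hx
      obtain ⟨x₂, h3⟩ : ∃ x₂ : Ext (Mk N k) (W0 N) k,
          (Ext.mk₀ ((MvPolynomial.X ⟨k, hk'⟩ : PN N) • 𝟙 (Mk N k))).comp x₂ (zero_add k) = x :=
        Ext.contravariant_sequence_exact₁ hS (W0 N) x (add_comm 1 k) hx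
      have h4 : (MvPolynomial.X ⟨k, hk'⟩ : PN N) • x₂ = x := by
        rw [← h3, Ext.mk₀_smul, Ext.smul_comp, Ext.mk₀_id_comp]
      rw [← h4]
      exact Submodule.smul_mem_smul (Ideal.mem_span_singleton_self _) trivial
    rw [Jk_eq hk', Submodule.sup_smul, eq_top_iff]
    intro x _
    have h5 : δ x ∈ (Jk N (k + 1)) • (⊤ : Submodule (PN N) (Ext (Mk N (k + 1)) (W0 N) (k + 1))) := by
      rw [h]; trivial
    rw [← LinearMap.range_eq_top.2 hδ, ← Submodule.map_top, ← Submodule.map_smul''] at h5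
    obtain ⟨y, hy, hxy⟩ := h5
    have h6 : x = (x - y) + y := by abel
    rw [h6]
    refine Submodule.add_mem_sup (hker ?_) hy
    rw [LinearMap.mem_ker, map_sub, hxy, sub_self]

theorem ext_ne (N : ℕ) : ¬ Subsingleton (Ext (Mk N N) (W0 N) N) := by
  intro h
  apply ext_ne_aux N le_rfl
  exact eq_top_iff.2 (fun x _ => by rw [h.elim x 0]; exact Submodule.zero_mem _)

end

end Pool.Agent.Hhelper18.DR
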