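import Mathlib
import Pool.Agent.Hhelper18.DR.CechMod
import Pool.Agent.Hhelper18.DR.ExtPoly
import Pool.Agent.Hhelper18.DB.Link

/-! The lattices of forms as modules over `ℂ[y₀,…,y₅]`, `y_i = x_i³`. -/

namespace Pool.Agent.Hhelper18.DR

open CategoryTheory CategoryTheory.Limits Pool.Agent.Hhelper18.DB Module

/-- the polynomial ring `ℂ[y₀,…,y₅]` -/
abbrev BB := PN 6

/-- `y_i ↦ x_i³` -/
noncomputable def gB : BB →ₐ[ℂ] LL := MvPolynomial.aeval (fun i => xx i ^ 3)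

theorem gB_X (i : Fin 6) : gB (MvPolynomial.X i) = xx i ^ 3 := by
  rw [gB, MvPolynomial.aeval_X]

theorem gB_mem (b : BB) : gB b ∈ B ∅ D0 := by
  induction b using MvPolynomial.induction_on with
  | C a =>
    have : gB (MvPolynomial.C a) = a • (1 : LL) := by
      rw [gB, MvPolynomial.aeval_C, Algebra.algebraMap_eq_smul_one]
    rw [this]
    exact Submodule.smul_mem _ _ (one_mem_B _ ⟨le_rfl, dvd_zero _⟩)
  | add p q hp hq => rw [map_add]; exact Submodule.add_mem _ hp hq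
  | mul_X p i hp =>
    rw [map_mul, gB_X]
    refine B_mul (fun a ha b hb => D0_add ha hb) hp (B_mono subset_rfl ?_ (cube_mem ∅ i))
    intro d hd
    rw [Set.mem_singleton_iff.1 hd]
    exact ⟨by norm_num, dvd_rfl⟩

/-- `{a, a+3, a+6, …}` -/
def DD (a : ℤ) : Set ℤ := {d | a ≤ d ∧ 3 ∣ d - a}

theorem mem_DD {a d : ℤ} : d ∈ DD a ↔ a ≤ d ∧ 3 ∣ d - a := Iff.rfl

theorem sh_DD (a : ℤ) : sh (DD (a + 1)) = DD a := by
  ext d
  simp only [sh, DD, Set.mem_ofPred_eq]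
  omega

theorem D0_add_DD {a : ℤ} {d e : ℤ} (hd : d ∈ D0) (he : e ∈ DD a) : d + e ∈ DD a := by
  obtain ⟨h1, h2⟩ := hd
  obtain ⟨h3, h4⟩ := he
  refine ⟨by omega, ?_⟩
  omega

/-- forms -/
def VV (p : ℕ) : Type := ⋀[LL]^p (Fin 7 → LL)

noncomputable instance (p : ℕ) : AddCommGroup (VV p) :=
  inferInstanceAs (AddCommGroup (⋀[LL]^p (Fin 7 → LL)))

noncomputable instance (p : ℕ) : Module LL (VV p) :=
  inferInstanceAs (Module LL (⋀[LL]^p (Fin 7 → LL)))

noncomputable instance (p : ℕ) : Module BB (VV p) := Module.compHom _ gB.toRingHom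

theorem smul_VV {p : ℕ} (b : BB) (x : VV p) : b • x = gB b • x := rfl

theorem gB_mem' (b : BB) (S : Finset (Fin 6)) : gB b ∈ B S D0 :=
  B_mono (Finset.empty_subset _) subset_rfl (gB_mem b)

/-- the lattices as modules -/
noncomputable def FM (p : ℕ) (a : ℤ) (S : Finset (Fin 6)) : Submodule BB (VV p) where
  carrier := ((FV S p (DD a) : AddSubgroup (⋀[LL]^p (Fin 7 → LL))) :
    Set (⋀[LL]^p (Fin 7 → LL)))
  zero_mem' := (FV S p (DD a)).zero_mem
  add_mem' := (FV S p (DD a)).add_mem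
  smul_mem' b x hx := smul_mem_FV (fun _ h _ h' => D0_add_DD h h') (gB_mem' b S) hx

theorem mem_FM {p : ℕ} {a : ℤ} {S : Finset (Fin 6)} {x : VV p} :
    x ∈ FM p a S ↔ x ∈ FV S p (DD a) := Iff.rfl

/-- wedging with `dq` -/
noncomputable def wL (p : ℕ) : VV p →ₗ[BB] VV (p + 1) where
  toFun x := wedge dq p x
  map_add' x y := map_add (wedge dq p) x y
  map_smul' b x := LinearMap.map_smul (wedge dq p) (gB b) x

theorem wL_apply {p : ℕ} (x : VV p) : wL p x = wedge dq p x := rfl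

/-- the lattices of the images -/
noncomputable def WM (p : ℕ) (a : ℤ) (S : Finset (Fin 6)) : Submodule BB (VV (p + 1)) :=
  (FM p a S).map (wL p)

theorem mem_WM {p : ℕ} {a : ℤ} {S : Finset (Fin 6)} {x : VV (p + 1)} :
    x ∈ WM p a S ↔ x ∈ WV S p (DD a) := Iff.rfl

theorem FM_mono (p : ℕ) (a : ℤ) : MonoF (FM p a) := fun _ _ h _ hx => FV_mono h subset_rfl hx

theorem WM_mono (p : ℕ) (a : ℤ) : MonoF (WM p a) := fun _ _ h =>
  Submodule.map_mono (FM_mono p a _ _ h)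

/-- Čech complexes -/
noncomputable abbrev CF (p : ℕ) (a : ℤ) := cech (FM p a) (FM_mono p a)

/-- Čech complexes -/
noncomputable abbrev CW (p : ℕ) (a : ℤ) := cech (WM p a) (WM_mono p a)

theorem ses_W (p : ℕ) (a : ℤ) :
    ∃ (S : ShortComplex (CochainComplex (ModuleCat.{0} BB) ℕ)) (_ : S.ShortExact),
      S.X₁ = CW p a ∧ S.X₂ = CF (p + 1) (a + 1) ∧ S.X₃ = CW (p + 1) (a + 1) := by
  refine cech_ses (WM_mono p a) (FM_mono (p + 1) (a + 1)) (WM_mono (p + 1) (a + 1))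
    LinearMap.id (wL (p + 1)) ?_ (fun _ _ h => h) ?_ ?_ ?_ ?_
  · intro S _ x hx
    have h : x ∈ WV S p (sh (DD (a + 1))) := by rw [sh_DD]; exact hx
    exact WV_le h
  · intro S _ x hx
    exact ⟨x, hx, rfl⟩
  · rintro S _ _ ⟨x, hx, rfl⟩
    exact ⟨x, hx, rfl⟩
  · intro S hS y hy h0
    have h := WV_exact hS (D := DD (a + 1)) hy h0
    rw [sh_DD] at h
    exact ⟨y, h, rfl⟩
  · rintro S _ _ ⟨x, _, rfl⟩
    exact wedge_wedge dq p x

end Pool.Agent.Hhelper18.DR
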