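import Mathlib
import Pool.Agent.Hhelper18.DR.LatMod

/-! The graded pieces of the coordinate ring are free over `ℂ[y₀,…,y₅]`. -/

namespace Pool.Agent.Hhelper18.DR

open CategoryTheory CategoryTheory.Limits Pool.Agent.Hhelper18.DB Module

/-- `LL` as a module -/
def LM : Type := LL

noncomputable instance : AddCommGroup LM := inferInstanceAs (AddCommGroup LL)

noncomputable instance : Module LL LM := inferInstanceAs (Module LL LL)

noncomputable instance : Module BB LM := Module.compHom _ gB.toRingHom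

/-- the exponent `e` as a vector of integers -/
def eT (e : Fin 6 → Fin 3) : E6 := fun l => ((e l : ℕ) : ℤ)

/-- the exponent `3q` -/
def qT (q : Fin 6 →₀ ℕ) : E6 := fun l => 3 * (q l : ℤ)

theorem qT_add (q q' : Fin 6 →₀ ℕ) : qT (q + q') = qT q + qT q' := by
  funext l
  simp [qT, mul_add]

theorem qT_eT_inj {q q' : Fin 6 →₀ ℕ} {e e' : Fin 6 → Fin 3} :
    qT q + eT e = qT q' + eT e' ↔ q = q' ∧ e = e' := by
  constructor
  · intro h
    have h1 : ∀ l, q l = q' l ∧ e l = e' l := by
      intro l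
      have h2 := congrFun h l
      simp only [qT, eT, Pi.add_apply] at h2
      have h3 := (e l).2
      have h4 := (e' l).2
      refine ⟨by omega, Fin.ext (by omega)⟩
    exact ⟨Finsupp.ext (fun l => (h1 l).1), funext (fun l => (h1 l).2)⟩
  · rintro ⟨rfl, rfl⟩
    rfl

theorem exists_qT_eT (E : E6) (hE : ∀ l, 0 ≤ E l) : ∃ q e, E = qT q + eT e := by
  refine ⟨Finsupp.equivFunOnFinite.symm (fun l => (E l).toNat / 3),
    fun l => ⟨(E l).toNat % 3, Nat.mod_lt _ (by norm_num)⟩, ?_⟩
  funext l
  have := hE l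
  simp only [qT, eT, Pi.add_apply, Finsupp.equivFunOnFinite_symm_apply_apply]
  omega

theorem gB_monomial (q : Fin 6 →₀ ℕ) (c : ℂ) :
    gB (MvPolynomial.monomial q c) = c • mR (qT q) := by
  rw [gB, MvPolynomial.aeval_monomial, Algebra.algebraMap_eq_smul_one, smul_mul_assoc, one_mul]
  congr 1
  rw [Finsupp.prod_fintype _ _ (fun i => pow_zero _)]
  have h : ∀ i, (xx i ^ 3) ^ (q i) = mR ((3 * (q i : ℤ)) • dl i) := by
    intro i
    rw [xx_cube, mR_pow, smul_smul, mul_comm]
  simp only [h]
  have h2 : ∀ s : Finset (Fin 6), ∏ i ∈ s, mR ((3 * (q i : ℤ)) • dl i) =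
      mR (∑ i ∈ s, (3 * (q i : ℤ)) • dl i) := by
    intro s
    induction s using Finset.induction_on with
    | empty => simp [mR_zero]
    | insert a s ha ih => rw [Finset.prod_insert ha, Finset.sum_insert ha, ih, mR_mul_mR]
  rw [h2]
  congr 1
  funext l
  simp [qT, dl, Finset.sum_apply, Pi.single_apply]

/-- index set of all monomials of exponent less than three -/
abbrev TT := (Fin 6 → Fin 3) × Bool

/-- the monomials of exponent less than three -/
noncomputable def vT (t : TT) : LL := if t.2 then mZ (eT t.1) else mR (eT t.1)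

/-- coefficients -/
noncomputable def cf (t : TT) (q : Fin 6 →₀ ℕ) : LL →+ ℂ where
  toFun f := if t.2 then f.im.coeff (qT q + eT t.1) else f.re.coeff (qT q + eT t.1)
  map_zero' := by split_ifs <;> simp
  map_add' f g := by split_ifs <;> simp

theorem cf_mul (t₀ t : TT) (q₀ : Fin 6 →₀ ℕ) (b : BB) :
    cf t₀ q₀ (gB b * vT t) = if t = t₀ then b.coeff q₀ else 0 := by
  induction b using MvPolynomial.induction_on' with
  | monomial q c =>
    rw [gB_monomial, MvPolynomial.coeff_monomial]
    obtain ⟨e, b⟩ := t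
    obtain ⟨e₀, b₀⟩ := t₀
    have key := qT_eT_inj (q := q) (q' := q₀) (e := e) (e' := e₀)
    cases b <;> cases b₀
    · have h1 : (c • mR (qT q)) * vT (e, false) = c • mR (qT q + eT e) := by
        simp only [vT, Bool.false_eq_true, if_false]
        rw [smul_mul_assoc, mR_mul_mR]
      rw [h1]
      by_cases h : q = q₀ ∧ e = e₀
      · obtain ⟨rfl, rfl⟩ := h
        simp [cf, mR]
      · have h2 : qT q + eT e ≠ qT q₀ + eT e₀ := fun h' => h (key.1 h')
        have h3 : cf (e₀, false) q₀ (c • mR (qT q + eT e)) = 0 := by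
          simp [cf, mR, h2]
        rw [h3]
        split_ifs with h4 h5
        · exact absurd ⟨h5, by simpa using h4⟩ h
        · rfl
        · rfl
    · have h1 : (c • mR (qT q)) * vT (e, false) = c • mR (qT q + eT e) := by
        simp only [vT, Bool.false_eq_true, if_false]
        rw [smul_mul_assoc, mR_mul_mR]
      rw [h1]
      have h3 : cf (e₀, true) q₀ (c • mR (qT q + eT e)) = 0 := by
        simp [cf, mR]
      rw [h3, if_neg (by simp)]
    · have h1 : (c • mR (qT q)) * vT (e, true) = c • mZ (qT q + eT e) := by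
        simp only [vT, if_true]
        rw [smul_mul_assoc, mR_mul_mZ]
      rw [h1]
      have h3 : cf (e₀, false) q₀ (c • mZ (qT q + eT e)) = 0 := by
        simp [cf, mZ]
      rw [h3, if_neg (by simp)]
    · have h1 : (c • mR (qT q)) * vT (e, true) = c • mZ (qT q + eT e) := by
        simp only [vT, if_true]
        rw [smul_mul_assoc, mR_mul_mZ]
      rw [h1]
      by_cases h : q = q₀ ∧ e = e₀
      · obtain ⟨rfl, rfl⟩ := h
        simp [cf, mZ]
      · have h2 : qT q + eT e ≠ qT q₀ + eT e₀ := fun h' => h (key.1 h')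
        have h3 : cf (e₀, true) q₀ (c • mZ (qT q + eT e)) = 0 := by
          simp [cf, mZ, h2]
        rw [h3]
        split_ifs with h4 h5
        · exact absurd ⟨h5, by simpa using h4⟩ h
        · rfl
        · rfl
  | add p q hp hq =>
    rw [map_add, add_mul, map_add, hp, hq, MvPolynomial.coeff_add]
    split_ifs <;> simp

/-- The pieces of the coordinate ring -/
noncomputable def BO (a : ℤ) : Submodule BB LM where
  carrier := ((B ∅ (DD a) : Submodule ℂ LL) : Set LL)
  zero_mem' := (B ∅ (DD a)).zero_mem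
  add_mem' := (B ∅ (DD a)).add_mem
  smul_mem' b _ hx := B_mul (fun _ h _ h' => D0_add_DD h h') (gB_mem b) hx

/-- degree of an index -/
def dT (t : TT) : ℤ := dg (eT t.1) + if t.2 then 1 else 0

theorem dg_qT (q : Fin 6 →₀ ℕ) : 3 ∣ dg (qT q) ∧ 0 ≤ dg (qT q) := by
  constructor
  · exact Finset.dvd_sum (fun l _ => ⟨q l, rfl⟩)
  · exact Finset.sum_nonneg (fun l _ => by simp [qT])

theorem dT_nonneg (t : TT) : 0 ≤ dT t := by
  have h : 0 ≤ dg (eT t.1) := Finset.sum_nonneg (fun l _ => by simp [eT])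
  unfold dT
  split_ifs <;> omega

theorem eT_nonneg (e : Fin 6 → Fin 3) (l : Fin 6) : 0 ≤ eT e l := by simp [eT]

theorem vT_mem {a : ℤ} (ha : a ≤ 2) (t : TT) (ht : 3 ∣ dT t - a) : vT t ∈ B ∅ (DD a) := by
  have h0 := dT_nonneg t
  unfold vT
  have h1 : dT t ∈ DD a := ⟨by omega, ht⟩
  unfold dT at h1
  split_ifs with h
  · refine mZ_mem ⟨fun l hl => absurd (eT_nonneg t.1 l) (by omega), ?_⟩
    rwa [if_pos h] at h1
  · refine mR_mem ⟨fun l hl => absurd (eT_nonneg t.1 l) (by omega), ?_⟩
    rwa [if_neg h] at h1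

/-- the candidate basis -/
noncomputable def vB {a : ℤ} (ha : a ≤ 2) (t : {t : TT // 3 ∣ dT t - a}) : BO a :=
  ⟨vT t.1, vT_mem ha t.1 t.2⟩

theorem vB_indep {a : ℤ} (ha : a ≤ 2) : LinearIndependent BB (vB ha) := by
  classical
  rw [linearIndependent_iff']
  intro s g hg t₀ ht₀
  have h1 : ∑ t ∈ s, gB (g t) * vT t.1 = 0 := by
    have h2 := congrArg Subtype.val hg
    rw [AddSubmonoidClass.coe_finsetSum] at h2
    exact h2
  refine MvPolynomial.ext _ _ (fun q₀ => ?_)
  have h3 := congrArg (cf t₀.1 q₀) h1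
  rw [map_sum, map_zero] at h3
  simp only [cf_mul] at h3
  rw [Finset.sum_eq_single t₀] at h3
  · simpa using h3
  · intro t _ ht
    rw [if_neg (fun h => ht (Subtype.ext h))]
  · intro h
    exact absurd ht₀ h

theorem vB_span {a : ℤ} (ha : a ≤ 2) : ⊤ ≤ Submodule.span BB (Set.range (vB ha)) := by
  have hneg : ∀ {e : E6}, (∀ l, e l < 0 → l ∈ (∅ : Finset (Fin 6))) → ∀ l, 0 ≤ e l := by
    intro e he l
    by_contra hcon
    exact absurd (he l (by omega)) (Finset.notMem_empty l)
  have key : ∀ f ∈ B ∅ (DD a), ∃ h : f ∈ B ∅ (DD a),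
      (⟨f, h⟩ : BO a) ∈ Submodule.span BB (Set.range (vB ha)) := by
    intro f hf
    refine SP_induction (motive := fun f => ∃ h : f ∈ B ∅ (DD a),
      (⟨f, h⟩ : BO a) ∈ Submodule.span BB (Set.range (vB ha))) ?_ ?_ ?_ ?_ hf
    · exact ⟨Submodule.zero_mem _, Submodule.zero_mem _⟩
    · rintro f g ⟨hf, hf'⟩ ⟨hg, hg'⟩
      exact ⟨Submodule.add_mem _ hf hg, Submodule.add_mem _ hf' hg'⟩
    · intro c E hE
      refine ⟨Submodule.smul_mem _ _ (mR_mem hE), ?_⟩
      obtain ⟨q, e, rfl⟩ := exists_qT_eT E (hneg hE.1)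
      have hd : 3 ∣ dT (e, false) - a := by
        have h1 := hE.2.2
        have h2 := (dg_qT q).1
        rw [dg_add] at h1
        simp only [dT, Bool.false_eq_true, if_false]
        omega
      have h3 : (⟨c • mR (qT q + eT e), Submodule.smul_mem _ _ (mR_mem hE)⟩ : BO a) =
          (MvPolynomial.monomial q c : BB) • vB ha ⟨(e, false), hd⟩ := by
        refine Subtype.ext ?_
        change c • mR (qT q + eT e) = gB (MvPolynomial.monomial q c) * vT (e, false)
        rw [gB_monomial, smul_mul_assoc]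
        simp only [vT, Bool.false_eq_true, if_false]
        rw [mR_mul_mR]
      rw [h3]
      exact Submodule.smul_mem _ _ (Submodule.subset_span ⟨_, rfl⟩)
    · intro c E hE
      refine ⟨Submodule.smul_mem _ _ (mZ_mem hE), ?_⟩
      obtain ⟨q, e, rfl⟩ := exists_qT_eT E (hneg hE.1)
      have hd : 3 ∣ dT (e, true) - a := by
        have h1 := hE.2.2
        have h2 := (dg_qT q).1
        rw [dg_add] at h1
        simp only [dT, if_true]
        omega
      have h3 : (⟨c • mZ (qT q + eT e), Submodule.smul_mem _ _ (mZ_mem hE)⟩ : BO a) =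
          (MvPolynomial.monomial q c : BB) • vB ha ⟨(e, true), hd⟩ := by
        refine Subtype.ext ?_
        change c • mZ (qT q + eT e) = gB (MvPolynomial.monomial q c) * vT (e, true)
        rw [gB_monomial, smul_mul_assoc]
        simp only [vT, if_true]
        rw [mR_mul_mZ]
      rw [h3]
      exact Submodule.smul_mem _ _ (Submodule.subset_span ⟨_, rfl⟩)
  rintro ⟨f, hf⟩ -
  obtain ⟨_, h⟩ := key f hf
  exact h

/-- the basis -/
noncomputable def basisBO {a : ℤ} (ha : a ≤ 2) : Basis {t : TT // 3 ∣ dT t - a} BB (BO a) :=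
  Basis.mk (vB_indep ha) (vB_span ha)

theorem free_BO {a : ℤ} (ha : a ≤ 2) : Module.Free BB (BO a) := Module.Free.of_basis (basisBO ha)

theorem finite_BO {a : ℤ} (ha : a ≤ 2) : Module.Finite BB (BO a) :=
  Module.Finite.of_basis (basisBO ha)

end Pool.Agent.Hhelper18.DR
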