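import Mathlib
import Pool.Agent.Hhelper18.DR.Cpx

/-! Modules as objects of the derived category. -/

namespace Pool.Agent.Hhelper18.DR

open CategoryTheory CategoryTheory.Limits HomologicalComplex Abelian

universe w

section

variable {B : Type} [CommRing B] [HasDerivedCategory.{w} (ModuleCat.{0} B)]

/-- a module in degree zero -/
noncomputable abbrev sg (M : ModuleCat.{0} B) : DerivedCategory (ModuleCat.{0} B) :=
  (DerivedCategory.singleFunctor (ModuleCat.{0} B) 0).obj M

variable (B) in
/-- the ring in degree zero -/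
noncomputable abbrev WB : DerivedCategory (ModuleCat.{0} B) := sg (ModuleCat.of B B)

theorem van_sg_iff (M : ModuleCat.{0} B) (n : ℕ) :
    Van (WB B) (sg M) (n : ℤ) ↔ Subsingleton (Ext M (ModuleCat.of B B) n) := by
  have e : Ext M (ModuleCat.of B B) n ≃ ShiftedHom (sg M) (WB B) (n : ℤ) := Ext.homEquiv
  rw [e.subsingleton_congr]
  constructor
  · intro h
    exact ⟨fun f g => (h f).trans (h g).symm⟩
  · intro h f
    exact Subsingleton.elim (α := ShiftedHom (sg M) (WB B) (n : ℤ)) f 0

theorem van_sg_of_projective (M : ModuleCat.{0} B) [Projective M] (j : ℤ) (hj : 0 < j) :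
    Van (WB B) (sg M) j := by
  obtain ⟨n, rfl⟩ : ∃ n : ℕ, j = ((n + 1 : ℕ) : ℤ) := ⟨(j - 1).toNat, by omega⟩
  rw [van_sg_iff]
  exact Ext.subsingleton_of_projective M _ n

/-- comparison of the two ways to see a module in the derived category -/
noncomputable def QNsingle (M : ModuleCat.{0} B) :
    QN ((HomologicalComplex.single (ModuleCat.{0} B) (ComplexShape.up ℕ) 0).obj M) ≅ sg M :=
  DerivedCategory.Q.mapIso (extendSingleIso ComplexShape.embeddingUpNat M 0 0 rfl)

theorem van_single_ses {S : ShortComplex (ModuleCat.{0} B)} (hS : S.ShortExact) {W}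
    {j j' : ℤ} (hj : j + 1 = j') (h1 : Van W (sg S.X₁) j) (h2 : Van W (sg S.X₂) j') :
    Van W (sg S.X₃) j' :=
  Van.right hS.singleTriangle_distinguished hj h1 h2

end

end Pool.Agent.Hhelper18.DR
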