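import Mathlib
import Pool.Agent.Hhelper18.DR.FreeMod
import Pool.Agent.Hhelper18.DR.Single

/-! The Čech complexes of the lattices of forms. -/

namespace Pool.Agent.Hhelper18.DR

open CategoryTheory CategoryTheory.Limits Pool.Agent.Hhelper18.DB Module

universe w

/-- coordinates -/
noncomputable def coL (p : ℕ) (a : ℤ) :
    FM p a ∅ →ₗ[BB] (∀ _ : Set.powersetCard (Fin 7) p, BO a) where
  toFun x t := ⟨co p t x.1, x.2 t⟩
  map_add' x y := funext (fun t => Subtype.ext (map_add (co p t) x.1 y.1))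
  map_smul' b x := funext (fun t => Subtype.ext ((co p t).map_smul (gB b) x.1))

theorem coL_bijective (p : ℕ) (a : ℤ) : Function.Bijective (coL p a) := by
  constructor
  · intro x y hxy
    refine Subtype.ext (co_ext (fun t => ?_))
    exact congrArg Subtype.val (congrFun hxy t)
  · intro f
    let g : Set.powersetCard (Fin 7) p → LL := fun t => (f t).1
    have h : ∀ t, co p t (∑ t, g t • bb.exteriorPower p t) = g t := by
      intro t
      change (bb.exteriorPower p).repr (∑ t, g t • bb.exteriorPower p t) t = _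
      rw [Basis.repr_sum_self]
    refine ⟨⟨(∑ t, g t • bb.exteriorPower p t : ⋀[LL]^p (Fin 7 → LL)), fun t => ?_⟩, ?_⟩
    · rw [h]; exact (f t).2
    · funext t
      exact Subtype.ext (h t)

theorem free_FM (p : ℕ) {a : ℤ} (ha : a ≤ 2) : Module.Free BB (FM p a ∅) := by
  have := free_BO ha
  exact Module.Free.of_equiv (LinearEquiv.ofBijective (coL p a) (coL_bijective p a)).symm

theorem projective_FM (p : ℕ) {a : ℤ} (ha : a ≤ 2) :
    Projective (ModuleCat.of BB (FM p a ∅)) := by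
  have := free_FM p ha
  exact ModuleCat.projective_of_categoryTheory_projective _

theorem mem_B_empty_iff {D : Set ℤ} {f : LL} : f ∈ B ∅ D ↔ ∀ i : Fin 6, f ∈ B {i} D := by
  constructor
  · intro h i
    exact B_mono (Finset.empty_subset _) subset_rfl h
  · intro h
    have key : ∀ l (i : Fin 6), i ≠ l → l ∉ ({i} : Finset (Fin 6)) := by
      intro l i hi hl
      exact hi (Finset.mem_singleton.1 hl).symm
    have key2 : ∀ l : Fin 6, ∃ i : Fin 6, i ≠ l := by decide
    constructor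
    · intro e he
      refine ⟨fun l hl => ?_, ((h 0).1 e he).2⟩
      obtain ⟨i, hi⟩ := key2 l
      exact absurd (((h i).1 e he).1 l hl) (key l i hi)
    · intro e he
      refine ⟨fun l hl => ?_, ((h 0).2 e he).2⟩
      obtain ⟨i, hi⟩ := key2 l
      exact absurd (((h i).2 e he).1 l hl) (key l i hi)

theorem mem_FM_empty_iff {p : ℕ} {a : ℤ} (x : VV p) :
    x ∈ FM p a ∅ ↔ ∀ i : Fin 6, x ∈ FM p a {i} := by
  constructor
  · intro h i
    exact FM_mono p a _ _ (Finset.empty_subset _) h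
  · intro h t
    exact mem_B_empty_iff.2 (fun i => h i t)

theorem acyc_grp_FM (p : ℕ) {a : ℤ} (ha : -4 ≤ a) (n : ℕ) : Acyc (grp (FM p a)) n :=
  acyc_FV p (D := DD a) (fun _ hd => ha.trans hd.1) n

section

variable [HasDerivedCategory.{w} (ModuleCat.{0} BB)] {W : DerivedCategory (ModuleCat.{0} BB)}

theorem van_CF_iff (p : ℕ) {a : ℤ} (ha : -4 ≤ a) (j : ℤ) :
    Van W (QN (CF p a)) j ↔ Van W (sg (ModuleCat.of BB (FM p a ∅))) j := by
  obtain ⟨f, hf⟩ := QI_const (FM_mono p a) (FM p a ∅) 0 (fun x => mem_FM_empty_iff x)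
    (fun S => FM_mono p a _ _ (Finset.empty_subset _)) (acyc_grp_FM p ha)
  rw [← hf.van j]
  exact ⟨Van.of_iso (QNsingle _), Van.of_iso (QNsingle _).symm⟩

theorem van_CF (p : ℕ) {a : ℤ} (ha : -4 ≤ a) (ha' : a ≤ 2) {j : ℤ} (hj : 0 < j) :
    Van (WB BB) (QN (CF p a)) j := by
  rw [van_CF_iff p ha]
  have := projective_FM p ha'
  exact van_sg_of_projective _ j hj

theorem van_CW_left {p : ℕ} {a : ℤ} {j : ℤ} (h1 : Van W (QN (CF (p + 1) (a + 1))) j)
    (h2 : Van W (QN (CW (p + 1) (a + 1))) (j + 1)) : Van W (QN (CW p a)) j := by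
  obtain ⟨S, hS, e1, e2, e3⟩ := ses_W p a
  rw [← e2] at h1
  rw [← e3] at h2
  rw [← e1]
  exact van_left hS h1 h2

theorem van_CW_right {p : ℕ} {a : ℤ} {j : ℤ} (h1 : Van W (QN (CW p a)) j)
    (h2 : Van W (QN (CF (p + 1) (a + 1))) (j + 1)) :
    Van W (QN (CW (p + 1) (a + 1))) (j + 1) := by
  obtain ⟨S, hS, e1, e2, e3⟩ := ses_W p a
  rw [← e1] at h1
  rw [← e2] at h2
  rw [← e3]
  exact van_right hS h1 h2

theorem van_CW_mid {p : ℕ} {a : ℤ} {j : ℤ} (h1 : Van W (QN (CW p a)) j)
    (h2 : Van W (QN (CW (p + 1) (a + 1))) j) :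
    Van W (QN (CF (p + 1) (a + 1))) j := by
  obtain ⟨S, hS, e1, e2, e3⟩ := ses_W p a
  rw [← e1] at h1
  rw [← e3] at h2
  rw [← e2]
  exact van_mid hS h1 h2

omit [HasDerivedCategory.{w} (ModuleCat.{0} BB)] in
theorem isZero_power_eight (x : ⋀[LL]^8 (Fin 7 → LL)) : x = 0 := by
  refine co_ext (fun t => ?_)
  exfalso
  have h1 : t.1.card = 8 := t.2
  have h2 : t.1.card ≤ 7 := by
    exact Finset.card_le_univ t.1
  omega

theorem van_CW_seven (a : ℤ) (j : ℤ) : Van W (QN (CW 7 a)) j := by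
  refine Van.of_isZero (isZero_Q_of_acyclic _ (acyclic_ext _ (fun n => ?_))) j
  have key : ∀ m (x y : (CW 7 a).X m), x = y := by
    intro m x y
    refine Subtype.ext (funext (fun s => ?_))
    have h1 : (ofX x).1 s = 0 := isZero_power_eight _
    have h2 : (ofX y).1 s = 0 := isZero_power_eight _
    exact h1.trans h2.symm
  cases n with
  | zero => exact exactAt_zero _ (fun x _ => key _ _ _)
  | succ n => exact exactAt_succ _ n (fun x _ => ⟨0, key _ _ _⟩)

end

end Pool.Agent.Hhelper18.DR
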