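import Mathlib
import Pool.Agent.Hhelper18.DR.Pieces

/-! The lowest degrees of the Koszul complex. -/

namespace Pool.Agent.Hhelper18.DR

open CategoryTheory CategoryTheory.Limits Pool.Agent.Hhelper18.DB Module

universe w

theorem B_disjoint {S : Finset (Fin 6)} {D D' : Set ℤ} (h : ∀ d ∈ D, d ∉ D') {f : LL}
    (hf : f ∈ B S D) (hf' : f ∈ B S D') : f = 0 := by
  ext e
  · by_contra hne
    exact h _ (hf.1 e hne).2 (hf'.1 e hne).2
  · by_contra hne
    exact h _ (hf.2 e hne).2 (hf'.2 e hne).2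

theorem FV_disjoint {S : Finset (Fin 6)} {p : ℕ} {D D' : Set ℤ} (h : ∀ d ∈ D, d ∉ D')
    {x : ⋀[LL]^p (Fin 7 → LL)} (hx : x ∈ FV S p D) (hx' : x ∈ FV S p D') : x = 0 := by
  refine co_ext (fun t => ?_)
  rw [map_zero]
  exact B_disjoint h (hx t) (hx' t)

theorem FV_split {S : Finset (Fin 6)} {p : ℕ} {a : ℤ} {x : ⋀[LL]^p (Fin 7 → LL)}
    (hx : x ∈ FV S p (DD a)) :
    ∃ x₀ ∈ FV S p {a}, ∃ x₁ ∈ FV S p (DD (a + 3)), x₀ + x₁ = x := by
  refine ⟨cutV (fun e n => dg e + n = a) p x, fun t => ?_,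
    x - cutV (fun e n => dg e + n = a) p x, fun t => ?_, by abel⟩
  · rw [co_cutV]
    exact SP_mono (fun e n h => ⟨h.2.1, h.1⟩) (cut_mem (hx t))
  · rw [map_sub, co_cutV]
    refine SP_mono (fun e n h => ⟨h.2.1, ?_⟩)
      (sub_cut_mem (P := fun e n => dg e + n = a) (hx t))
    obtain ⟨h1, _, h3, h4⟩ := h
    change ¬ (dg e + n = a) at h1
    refine ⟨?_, ?_⟩ <;> omega

theorem WV_split {S : Finset (Fin 6)} {p : ℕ} {a : ℤ} {y : ⋀[LL]^(p + 1) (Fin 7 → LL)}
    (hy : y ∈ WV S p (DD a)) :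
    ∃ y₀ ∈ WV S p {a}, ∃ y₁ ∈ WV S p (DD (a + 3)), y₀ + y₁ = y := by
  obtain ⟨x, hx, rfl⟩ := hy
  obtain ⟨x₀, h0, x₁, h1, rfl⟩ := FV_split hx
  exact ⟨_, ⟨x₀, h0, rfl⟩, _, ⟨x₁, h1, rfl⟩, (map_add (wedge dq p) _ _).symm⟩

theorem WV_mono {S S' : Finset (Fin 6)} {p : ℕ} {D D' : Set ℤ} (hS : S ⊆ S') (hD : D ⊆ D') :
    WV S p D ≤ WV S' p D' := by
  rintro _ ⟨x, hx, rfl⟩
  exact ⟨x, FV_mono hS hD hx, rfl⟩

theorem sh_singleton (a : ℤ) : sh {a + 1} = {a} := by
  ext d
  simp only [sh, Set.mem_ofPred_eq, Set.mem_singleton_iff]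
  omega

theorem WV_le_single {S : Finset (Fin 6)} {p : ℕ} {a : ℤ} : WV S p {a} ≤ FV S (p + 1) {a + 1} := by
  rw [← sh_singleton a]
  exact WV_le

theorem WV_le_DD {S : Finset (Fin 6)} {p : ℕ} {a : ℤ} :
    WV S p (DD a) ≤ FV S (p + 1) (DD (a + 1)) := by
  rw [← sh_DD a]
  exact WV_le

/-- the lattices as subgroups of `VV` -/
noncomputable def WG (p : ℕ) (D : Set ℤ) (S : Finset (Fin 6)) : AddSubgroup (VV (p + 1)) := WV S p D

theorem WM_split {S : Finset (Fin 6)} {p : ℕ} {a : ℤ} {y : VV (p + 1)} (hy : y ∈ WM p a S) :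
    ∃ y₀ ∈ WG p {a} S, ∃ y₁ ∈ WM p (a + 3) S, y₀ + y₁ = y := WV_split hy

theorem WG_le {S : Finset (Fin 6)} {p : ℕ} {a : ℤ} {y : VV (p + 1)} (hy : y ∈ WG p {a} S) :
    y ∈ WM p a S := by
  refine WV_mono (S := S) subset_rfl ?_ hy
  intro d hd
  rw [Set.mem_singleton_iff.1 hd]
  exact ⟨le_rfl, by simp⟩

theorem WG_mono (p : ℕ) (D : Set ℤ) (S T : Finset (Fin 6)) (h : S ⊆ T) : WG p D S ≤ WG p D T :=
  WV_mono h subset_rfl

theorem WG_disjoint {S : Finset (Fin 6)} {p : ℕ} {a : ℤ} {y : VV (p + 1)} (hy : y ∈ WG p {a} S)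
    (hy' : y ∈ WM p (a + 3) S) : y = 0 := by
  refine FV_disjoint (D := {a + 1}) (D' := DD (a + 3 + 1)) ?_ (WV_le_single hy) (WV_le_DD hy')
  rintro d hd ⟨hd', _⟩
  rw [Set.mem_singleton_iff.1 hd] at hd'
  omega

theorem WM_le (p : ℕ) (a : ℤ) (S : Finset (Fin 6)) : WM p (a + 3) S ≤ WM p a S := by
  intro x hx
  refine WV_mono (S := S) (p := p) subset_rfl ?_ hx
  rintro d ⟨h1, h2⟩
  refine ⟨?_, ?_⟩ <;> omega

/-- comparison when the lowest degree is acyclic -/
theorem QI_low {p : ℕ} {a : ℤ} (hac : ∀ n, Acyc (WG p {a}) n)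
    (h0 : ∀ z, IsCo (WG p {a}) 0 z → cd 0 z = 0 → z = 0) :
    QI (cechMap (WM_mono p (a + 3)) (WM_mono p a) LinearMap.id
      (fun S _ _ hx => WM_le p a S hx)) := by
  have hsplit : ∀ n (z : (Fin (n + 1) → Fin 6) → VV (p + 1)), z ∈ Co (WM p a) n →
      cd n z ∈ Co (WM p (a + 3)) (n + 1) → ∃ z₀ z₁ : (Fin (n + 1) → Fin 6) → VV (p + 1),
      IsCo (WG p {a}) n z₀ ∧ z₁ ∈ Co (WM p (a + 3)) n ∧ z₀ + z₁ = z ∧ cd n z₀ = 0 := by
    intro n z hz hdz
    choose z₀ h0 z₁ h1 h01 using fun s => WM_split (hz s)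
    refine ⟨z₀, z₁, h0, h1, funext h01, ?_⟩
    have hz01 : z₀ + z₁ = z := funext h01
    have hcd : cd n z₀ = cd n z - cd n z₁ := by
      rw [← hz01, cd_add]; abel
    funext s
    refine WG_disjoint (a := a) (IsCo.cd (WG_mono p {a}) h0 s) ?_
    rw [hcd]
    exact Submodule.sub_mem _ (hdz s) (cd_mem_Co (WM_mono p (a + 3)) h1 s)
  refine QI_incl (WM_mono p (a + 3)) (WM_mono p a) (WM_le p a) ?_ ?_
  · intro z hz hdz
    obtain ⟨z₀, z₁, h1, h2, h4, h3⟩ := hsplit 0 z hz hdz
    have h5 : z = z₁ := by rw [← h4, h0 z₀ h1 h3]; exact zero_add z₁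
    rw [h5]
    exact h2
  · intro n z hz hdz
    obtain ⟨z₀, z₁, h1, h2, rfl, h3⟩ := hsplit (n + 1) z hz hdz
    obtain ⟨y, hy, rfl⟩ := hac n z₀ h1 h3
    refine ⟨y, fun s => WG_le (hy s), ?_⟩
    have : cd n y + z₁ - cd n y = z₁ := by abel
    rw [this]
    exact h2

/-! ### Coefficients of linear forms -/

/-- coefficient functionals -/
noncomputable def lamK (k : Fin 7) : LL →ₗ[ℂ] ℂ :=
  Fin.cases (motive := fun _ => LL →ₗ[ℂ] ℂ)
    { toFun := fun f => f.im.coeff 0
      map_add' := fun _ _ => rfl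
      map_smul' := fun _ _ => rfl }
    (fun l =>
      { toFun := fun f => f.re.coeff (dl (pt l))
        map_add' := fun _ _ => rfl
        map_smul' := fun _ _ => rfl }) k

theorem dl_inj {l m : Fin 6} (h : dl l = dl m) : l = m := by
  by_contra hne
  have := congrFun h l
  simp [dl, hne] at this

theorem lamK_dq_self (k : Fin 7) : lamK k (dq k) ≠ 0 := by
  refine Fin.cases ?_ (fun l => ?_) k
  · have h : dq 0 = (2 : ℂ) • mZ 0 := by
      have : dq 0 = 2 * zz := rfl
      rw [this, two_mul, zz, two_smul]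
    rw [h, map_smul]
    have : lamK 0 (mZ 0) = 1 := by
      change (mZ 0).im.coeff 0 = 1
      simp [mZ]
    rw [this]
    norm_num
  · have h : dq l.succ = - mR (dl (pt l)) := rfl
    rw [h, map_neg]
    have : lamK l.succ (mR (dl (pt l))) = 1 := by
      change (mR (dl (pt l))).re.coeff (dl (pt l)) = 1
      simp [mR]
    rw [this]
    norm_num

theorem lamK_dq_ne {k k' : Fin 7} (hne : k' ≠ k) : lamK k (dq k') = 0 := by
  revert hne
  refine Fin.cases ?_ (fun l => ?_) k
  · refine Fin.cases ?_ (fun m => ?_) k'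
    · intro h; exact absurd rfl h
    · intro _
      have h : dq m.succ = - mR (dl (pt m)) := rfl
      rw [h, map_neg]
      have : lamK 0 (mR (dl (pt m))) = 0 := by
        change (mR (dl (pt m))).im.coeff 0 = 0
        simp [mR]
      rw [this, neg_zero]
  · refine Fin.cases ?_ (fun m => ?_) k'
    · intro _
      have h : dq 0 = (2 : ℂ) • mZ 0 := by
        have : dq 0 = 2 * zz := rfl
        rw [this, two_mul, zz, two_smul]
      rw [h, map_smul]
      have : lamK l.succ (mZ 0) = 0 := by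
        change (mZ 0).re.coeff (dl (pt l)) = 0
        simp [mZ]
      rw [this, smul_zero]
    · intro hne
      have h : dq m.succ = - mR (dl (pt m)) := rfl
      rw [h, map_neg]
      have h1 : dl (pt m) ≠ dl (pt l) := by
        intro h2
        have h3 := congrArg pt (dl_inj h2)
        rw [pt_pt, pt_pt] at h3
        exact hne (by rw [h3])
      have : lamK l.succ (mR (dl (pt m))) = 0 := by
        change (mR (dl (pt m))).re.coeff (dl (pt l)) = 0
        simp [mR, h1]
      rw [this, neg_zero]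

theorem const_of_mem {f : LL} (hf : f ∈ B ∅ {0}) : ∃ c : ℂ, f = c • (1 : LL) := by
  have hneg : ∀ {e : E6}, (∀ l, e l < 0 → l ∈ (∅ : Finset (Fin 6))) → ∀ l, 0 ≤ e l := by
    intro e he l
    by_contra hcon
    exact absurd (he l (by omega)) (Finset.notMem_empty l)
  refine SP_induction (motive := fun f => ∃ c : ℂ, f = c • (1 : LL)) ?_ ?_ ?_ ?_ hf
  · exact ⟨0, by rw [zero_smul]⟩
  · rintro _ _ ⟨c, rfl⟩ ⟨c', rfl⟩
    exact ⟨c + c', by rw [add_smul]⟩
  · intro c e he
    have h0 : e = 0 := by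
      have h1 : dg e = 0 := by have := he.2; simpa using this
      have h2 := (Finset.sum_eq_zero_iff_of_nonneg (fun l _ => hneg he.1 l)).1 h1
      funext l
      exact h2 l (Finset.mem_univ _)
    exact ⟨c, by rw [h0, mR_zero]⟩
  · intro c e he
    exfalso
    have h1 : dg e + 1 = 0 := by have := he.2; simpa using this
    have h2 : 0 ≤ dg e := Finset.sum_nonneg (fun l _ => hneg he.1 l)
    omega

theorem linear_of_mem {f : LL} (hf : f ∈ B ∅ {1}) : ∃ c : Fin 7 → ℂ, f = ∑ k, c k • dq k := by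
  have hneg : ∀ {e : E6}, (∀ l, e l < 0 → l ∈ (∅ : Finset (Fin 6))) → ∀ l, 0 ≤ e l := by
    intro e he l
    by_contra hcon
    exact absurd (he l (by omega)) (Finset.notMem_empty l)
  refine SP_induction (motive := fun f => ∃ c : Fin 7 → ℂ, f = ∑ k, c k • dq k) ?_ ?_ ?_ ?_ hf
  · exact ⟨0, by simp⟩
  · rintro _ _ ⟨c, rfl⟩ ⟨c', rfl⟩
    exact ⟨c + c', by simp [add_smul, Finset.sum_add_distrib]⟩
  · intro c e he
    have h1 : dg e = 1 := by have := he.2; simpa using this
    obtain ⟨l, hl⟩ : ∃ l, e = dl l := by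
      obtain ⟨l, hl⟩ : ∃ l, 1 ≤ e l := by
        by_contra hcon
        push Not at hcon
        have h0 : dg e = 0 := Finset.sum_eq_zero (fun l _ => by
          have := hcon l; have := hneg he.1 l; omega)
        omega
      refine ⟨l, ?_⟩
      have h2 : dg (e - dl l) = 0 := by rw [dg_sub, dg_dl, h1]; rfl
      have h3 : ∀ m ∈ Finset.univ, 0 ≤ (e - dl l) m := by
        intro m _
        simp only [Pi.sub_apply, dl, Pi.single_apply]
        split_ifs with h
        · rw [h]; omega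
        · have := hneg he.1 m; omega
      have h4 := (Finset.sum_eq_zero_iff_of_nonneg h3).1 h2
      funext m
      have := h4 m (Finset.mem_univ _)
      rw [Pi.sub_apply] at this
      omega
    refine ⟨Pi.single (pt l).succ (-c), ?_⟩
    rw [Finset.sum_eq_single (pt l).succ]
    · rw [Pi.single_eq_same, hl]
      have h : dq (pt l).succ = - mR (dl (pt (pt l))) := rfl
      rw [h, pt_pt, smul_neg, neg_smul, neg_neg]
    · intro k _ hk
      rw [Pi.single_eq_of_ne hk, zero_smul]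
    · intro h; exact absurd (Finset.mem_univ _) h
  · intro c e he
    have h1 : dg e + 1 = 1 := by have := he.2; simpa using this
    have h0 : e = 0 := by
      have h2 := (Finset.sum_eq_zero_iff_of_nonneg (fun l _ => hneg he.1 l)).1
        (show dg e = 0 by omega)
      funext l
      exact h2 l (Finset.mem_univ _)
    refine ⟨Pi.single 0 (c / 2), ?_⟩
    rw [Finset.sum_eq_single 0]
    · rw [Pi.single_eq_same, h0]
      have h : dq 0 = (2 : ℂ) • mZ 0 := by
        have : dq 0 = 2 * zz := rfl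
        rw [this, two_mul, zz, two_smul]
      rw [h, smul_smul]
      congr 1
      field_simp
    · intro k _ hk
      rw [Pi.single_eq_of_ne hk, zero_smul]
    · intro h; exact absurd (Finset.mem_univ _) h

/-! ### Exterior products with `dq` in the lowest degree -/

theorem bb_mem (S : Finset (Fin 6)) (k k' : Fin 7) : bb k k' ∈ B S {0} := by
  by_cases hk : k' = k
  · have : bb k k' = 1 := by
      rw [hk, bb, Pi.basisFun_apply, Pi.single_eq_same]
    rw [this]
    exact one_mem_B S rfl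
  · have : bb k k' = 0 := by
      rw [bb, Pi.basisFun_apply, Pi.single_eq_of_ne hk]
    rw [this]
    exact Submodule.zero_mem _

/-- coordinate functionals -/
noncomputable def xk (k : Fin 7) : Module.Dual LL (Fin 7 → LL) :=
  LinearMap.proj (R := LL) (φ := fun _ : Fin 7 => LL) k

theorem xk_apply (k : Fin 7) (v : Fin 7 → LL) : xk k v = v k := rfl

theorem surj_low {u : ⋀[LL]^7 (Fin 7 → LL)} (hu : u ∈ FV ∅ 7 {1}) :
    ∃ w ∈ FV ∅ 6 {0}, wedge dq 6 w = u := by
  refine FV_induction (motive := fun u => ∃ w ∈ FV ∅ 6 {0}, wedge dq 6 w = u) ?_ ?_ ?_ hu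
  · exact ⟨0, AddSubgroup.zero_mem _, map_zero _⟩
  · rintro _ _ ⟨w, hw, rfl⟩ ⟨w', hw', rfl⟩
    exact ⟨w + w', AddSubgroup.add_mem _ hw hw', map_add _ _ _⟩
  · intro f hf K
    obtain ⟨c, rfl⟩ := linear_of_mem hf
    have key : ∀ k, wedge dq 6 (contr (xk k) 6 (eK K)) = dq k • eK K := by
      intro k
      have h1 := contr_wedge_succ (xk k) dq 6 (eK K)
      rw [isZero_power_eight (wedge dq 7 (eK K)), map_zero] at h1
      exact (sub_eq_zero.1 h1.symm).symm
    refine ⟨∑ k, (c k • (1 : LL)) • contr (xk k) 6 (eK K), ?_, ?_⟩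
    · refine AddSubgroup.sum_mem _ (fun k _ => ?_)
      refine smul_mem_FV (D := {0}) (D' := {0}) ?_
        (Submodule.smul_mem _ _ (one_mem_B ∅ (Set.mem_singleton _)))
        (contr_smul_eK_mem (fun k' => bb_mem ∅ k' k) 6 K)
      intro a ha b hb
      rw [Set.mem_singleton_iff.1 ha, Set.mem_singleton_iff.1 hb]
      rfl
    · rw [map_sum, Finset.sum_smul]
      refine Finset.sum_congr rfl (fun k _ => ?_)
      rw [LinearMap.map_smul, key, smul_smul, smul_mul_assoc, one_mul]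

theorem co_wedge_bb {q : ℕ} (k : Fin 7) (t : Set.powersetCard (Fin 7) (q + 1)) (hk : k ∉ t.1)
    (x : ⋀[LL]^q (Fin 7 → LL)) : co (q + 1) t (wedge (bb k) q x) = 0 := by
  classical
  rw [eq_sum_co x, map_sum, map_sum]
  refine Finset.sum_eq_zero (fun t' _ => ?_)
  rw [LinearMap.map_smul, LinearMap.map_smul]
  have h1 : wedge (bb k) q (bb.exteriorPower q t') =
      eK (Fin.cons k (Set.powersetCard.ofFinEmbEquiv.symm t') : Fin (q + 1) → Fin 7) := by
    rw [← wedge_eK, exteriorPower.basis_apply]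
    rfl
  have h2 : co (q + 1) t
      (eK (Fin.cons k (Set.powersetCard.ofFinEmbEquiv.symm t') : Fin (q + 1) → Fin 7)) = 0 := by
    rw [co, exteriorPower.basis_coord, eK, exteriorPower.ιMultiDual_apply_ιMulti]
    refine Matrix.det_eq_zero_of_row_eq_zero 0 (fun j => ?_)
    rw [Matrix.of_apply, Basis.coord_apply, Fin.cons_zero, Basis.repr_self,
      Finsupp.single_apply, if_neg]
    intro h3
    apply hk
    rw [h3, Set.powersetCard.ofFinEmbEquiv_symm_apply]
    exact Finset.orderEmbOfFin_mem t.val t.prop j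
  rw [h1, h2, smul_zero]

theorem inj_low {q : ℕ} (hq : q ≤ 6) {v : ⋀[LL]^q (Fin 7 → LL)} (hv : v ∈ FV ∅ q {0})
    (h0 : wedge dq q v = 0) : v = 0 := by
  -- each `e_k ∧ v` vanishes
  have h1 : ∀ k, wedge (bb k) q v = 0 := by
    intro k
    refine co_ext (fun t => ?_)
    rw [map_zero]
    have h2 : ∀ k, ∃ c : ℂ, co (q + 1) t (wedge (bb k) q v) = c • (1 : LL) := by
      intro k
      refine const_of_mem (wedge_mem_FV (D := {0}) (D' := {0}) ?_ (bb_mem ∅ k) hv t)
      intro a ha b hb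
      rw [Set.mem_singleton_iff.1 ha, Set.mem_singleton_iff.1 hb]
      rfl
    choose c hc using h2
    have h3 : ∑ k, c k • dq k = 0 := by
      have h4 := congrArg (co (q + 1) t) h0
      rw [wedge_sum_smul, map_sum, map_zero] at h4
      rw [← h4]
      refine Finset.sum_congr rfl (fun k _ => ?_)
      rw [map_smul, hc, smul_eq_mul, mul_smul_comm, mul_one]
    have h5 := congrArg (lamK k) h3
    rw [map_sum, map_zero, Finset.sum_eq_single k] at h5
    · rw [map_smul, smul_eq_mul] at h5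
      rcases mul_eq_zero.1 h5 with h6 | h6
      · rw [hc, h6, zero_smul]
      · exact absurd h6 (lamK_dq_self k)
    · intro k' _ hk'
      rw [map_smul, lamK_dq_ne hk', smul_zero]
    · intro h; exact absurd (Finset.mem_univ _) h
  cases q with
  | zero =>
    have h2 := contr_wedge_zero (xk 0) (bb 0) v
    rw [h1 0, map_zero, xk_apply] at h2
    have h3 : bb 0 0 = 1 := by rw [bb, Pi.basisFun_apply, Pi.single_eq_same]
    rw [h3, one_smul] at h2
    exact h2.symm
  | succ q =>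
    refine co_ext (fun t => ?_)
    obtain ⟨k, hk⟩ : ∃ k, k ∉ t.1 := by
      by_contra hcon
      push Not at hcon
      have h2 : t.1 = Finset.univ := Finset.eq_univ_iff_forall.2 hcon
      have h3 : t.1.card = q + 1 := t.2
      rw [h2, Finset.card_univ, Fintype.card_fin] at h3
      omega
    have h2 := contr_wedge_succ (xk k) (bb k) q v
    rw [h1 k, map_zero, xk_apply] at h2
    have h3 : bb k k = 1 := by rw [bb, Pi.basisFun_apply, Pi.single_eq_same]
    rw [h3, one_smul] at h2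
    rw [sub_eq_zero.1 h2.symm, map_zero]
    exact co_wedge_bb k t hk _

/-! ### The two comparisons -/

theorem h0_low {p : ℕ} (hp : p + 1 ≤ 6) (z : (Fin 1 → Fin 6) → VV (p + 1))
    (hz : IsCo (WG p {(-1 : ℤ)}) 0 z) (hd : cd 0 z = 0) : z = 0 := by
  have h1 : ∀ s t, z s = z t := cd_zero_const hd
  funext s
  have h2 : ∀ i : Fin 6, z s ∈ WG p {(-1 : ℤ)} {i} := by
    intro i
    have h3 := hz (fun _ => i)
    have hi : img (fun _ : Fin 1 => i) = {i} := by
      ext x; simp [img, eq_comm]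
    rw [hi, h1 _ s] at h3
    exact h3
  have h3 : (show ⋀[LL]^(p + 1) (Fin 7 → LL) from z s) ∈ FV ∅ (p + 1) {0} := by
    intro t
    refine mem_B_empty_iff.2 (fun i => ?_)
    exact WV_le_single (a := -1) (h2 i) t
  have h4 : wedge dq (p + 1) (show ⋀[LL]^(p + 1) (Fin 7 → LL) from z s) = 0 := by
    obtain ⟨x, _, hx⟩ := h2 0
    rw [← hx]
    exact wedge_wedge dq p x
  exact inj_low hp h3 h4

theorem acyc_WG_three (n : ℕ) : Acyc (WG 3 {(-1 : ℤ)}) n :=
  acyc_WV 3 (D := {(-1 : ℤ)}) (fun d hd => by rw [Set.mem_singleton_iff.1 hd]; norm_num) n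

theorem acyc_WV_six (n : ℕ) : Acyc (fun S => WV S 6 {(0 : ℤ)}) n := by
  refine (acyc_of_injective (P := fun S => FV S 7 {(1 : ℤ)}) (AddMonoidHom.id _)
    Function.injective_id ?_).2 (acyc_FV 7 (fun d hd => by
      rw [Set.mem_singleton_iff.1 hd]; norm_num) n)
  intro S hS y
  constructor
  · intro hy
    exact ⟨y, WV_le_single (a := 0) hy, rfl⟩
  · rintro ⟨x, hx, rfl⟩
    have h1 := WV_exact hS (p := 6) (D := {(1 : ℤ)}) hx (isZero_power_eight _)
    have h2 : sh {(1 : ℤ)} = {(0 : ℤ)} := sh_singleton 0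
    rw [h2] at h1
    exact h1

theorem acyc_WG_five (n : ℕ) : Acyc (WG 5 {(-1 : ℤ)}) n := by
  have hsh : sh {(0 : ℤ)} = {(-1 : ℤ)} := by
    ext d
    simp only [sh, Set.mem_ofPred_eq, Set.mem_singleton_iff]
    omega
  have hF : ∀ n, Acyc (fun S => FV S 6 {(0 : ℤ)}) n := fun n =>
    acyc_FV 6 (fun d hd => by rw [Set.mem_singleton_iff.1 hd]; norm_num) n
  cases n with
  | succ n =>
    have h1 := acyc_WV_left (p := 5) (D := {(0 : ℤ)}) (n := n) (acyc_WV_six n) (hF (n + 1))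
    rw [hsh] at h1
    exact h1
  | zero =>
    intro φ hφ hdφ
    obtain ⟨χ, hχ, hdχ⟩ := hF 0 φ (fun s => WV_le_single (a := -1) (hφ s)) hdφ
    -- the image of `χ` is constant
    have hw : cd 0 (fun s => wedge dq 6 (χ s)) = 0 := by
      have h1 := cd_map 0 (wedge dq 6).toAddMonoidHom χ
      refine h1.trans ?_
      funext s
      have h2 : cd 0 χ s = φ s := congrFun hdχ s
      change wedge dq 6 (cd 0 χ s) = 0
      rw [h2]
      obtain ⟨x, _, hx⟩ := hφ s
      rw [← hx]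
      exact wedge_wedge dq 5 x
    have h1 : ∀ s t, wedge dq 6 (χ s) = wedge dq 6 (χ t) := cd_zero_const hw
    have h2 : wedge dq 6 (χ (fun _ => 0)) ∈ FV ∅ 7 {(1 : ℤ)} := by
      intro t
      refine mem_B_empty_iff.2 (fun i => ?_)
      rw [h1 _ (fun _ => i)]
      have h3 := hχ (fun _ => i)
      have hi : img (fun _ : Fin 1 => i) = {i} := by
        ext x; simp [img, eq_comm]
      rw [hi] at h3
      exact wedge_dq_mem (D := {(1 : ℤ)}) (by rw [show sh {(1 : ℤ)} = {(0 : ℤ)} from sh_singleton 0]; exact h3) t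
    obtain ⟨w, hw1, hw2⟩ := surj_low h2
    refine ⟨fun s => χ s - w, fun s => ?_, ?_⟩
    · have h3 : χ s - w ∈ FV (img s) 6 {(0 : ℤ)} :=
        AddSubgroup.sub_mem _ (hχ s) (FV_mono (Finset.empty_subset _) subset_rfl hw1)
      have h4 : wedge dq 6 (χ s - w) = 0 := by
        rw [map_sub, hw2, h1 s (fun _ => 0), sub_self]
      have h5 := WV_exact (img_nonempty s) (p := 5) (D := {(0 : ℤ)}) h3 h4
      rw [hsh] at h5
      exact h5
    · have h4 : cd 0 (fun _ : Fin 1 → Fin 6 => w) = 0 := by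
        funext s
        rw [cd_zero_apply, sub_self]
        rfl
      have h5 : cd 0 χ - cd 0 (fun _ : Fin 1 → Fin 6 => w) = cd 0 χ := by
        rw [h4, sub_zero]
      exact (cd_sub 0 χ (fun _ => w)).trans (h5.trans hdχ)

section

variable [HasDerivedCategory.{w} (ModuleCat.{0} BB)] {W : DerivedCategory (ModuleCat.{0} BB)}

theorem van_CW_three (j : ℤ) : Van W (QN (CW 3 2)) j ↔ Van W (QN (CW 3 (-1))) j :=
  (QI_low acyc_WG_three (h0_low (by norm_num))).van j

theorem van_CW_five (j : ℤ) : Van W (QN (CW 5 2)) j ↔ Van W (QN (CW 5 (-1))) j :=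
  (QI_low acyc_WG_five (h0_low (by norm_num))).van j

end

end Pool.Agent.Hhelper18.DR
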