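import Mathlib
import Pool.Agent.Hhelper18.DR.LowDeg

/-! Dévissage. -/

namespace Pool.Agent.Hhelper18.DR

open CategoryTheory CategoryTheory.Limits Pool.Agent.Hhelper18.DB Module

universe w

theorem DD_zero : DD 0 = D0 := by
  ext d
  simp only [DD, D0, Set.mem_ofPred_eq, sub_zero]

theorem DD_three : DD 3 = D1 := by
  ext d
  simp only [DD, D1, Set.mem_ofPred_eq]
  omega

/-- the constant coefficient -/
noncomputable def c0 : LL →ₗ[ℂ] ℂ where
  toFun f := f.re.coeff 0
  map_add' _ _ := rfl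
  map_smul' _ _ := rfl

theorem c0_apply (f : LL) : c0 f = f.re.coeff 0 := rfl

theorem c0_one : c0 1 = 1 := by
  rw [← mR_zero, c0_apply]
  simp [mR]

theorem c0_cut0 (f : LL) : c0 (cut0 f) = c0 f := by
  classical
  rw [c0_apply, c0_apply, cut0, cut_re, if_pos]
  simp [dg]

theorem cut0_eq {f : LL} (hf : f ∈ B ∅ D0) : cut0 f = c0 f • (1 : LL) := by
  obtain ⟨c, hc⟩ := const_of_mem (cut0_mem hf)
  have h : c = c0 f := by
    rw [← c0_cut0, hc, map_smul, c0_one, smul_eq_mul, mul_one]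
  rw [hc, h]

theorem c0_mul {f g : LL} (hf : f ∈ B ∅ D0) (hg : g ∈ B ∅ D0) : c0 (f * g) = c0 f * c0 g := by
  rw [← c0_cut0, cut0_mul hf hg, cut0_eq hf, cut0_eq hg, smul_mul_smul_comm, one_mul, map_smul,
    c0_one, smul_eq_mul, mul_one]

theorem c0_gB (b : BB) : c0 (gB b) = b.coeff 0 := by
  induction b using MvPolynomial.induction_on' with
  | monomial q c =>
    rw [gB_monomial, map_smul, MvPolynomial.coeff_monomial]
    by_cases h : q = 0
    · have : qT 0 = 0 := by funext l; simp [qT]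
      rw [h, this, mR_zero, c0_one, if_pos rfl, smul_eq_mul, mul_one]
    · have h2 : qT q ≠ 0 := by
        intro h3
        apply h
        ext l
        have := congrFun h3 l
        simpa [qT] using this
      have h3 : c0 (mR (qT q)) = 0 := by
        rw [c0_apply]
        simp [mR, h2]
      rw [h3, smul_zero, if_neg h]
  | add p q hp hq => rw [map_add, map_add, hp, hq, MvPolynomial.coeff_add]

theorem sub_C_mem (b : BB) : b - MvPolynomial.C (b.coeff 0) ∈ Ik 6 6 := by
  rw [Ik, MvPolynomial.mem_ideal_span_X_image]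
  intro m hm
  obtain ⟨i, hi⟩ : ∃ i, m i ≠ 0 := by
    by_contra hcon
    push Not at hcon
    have h0 : m = 0 := Finsupp.ext hcon
    rw [h0, MvPolynomial.mem_support_iff, MvPolynomial.coeff_sub, MvPolynomial.coeff_C,
      if_pos rfl, sub_self] at hm
    exact hm rfl
  exact ⟨i, i.2, hi⟩

theorem C_mem_iff (c : ℂ) : (MvPolynomial.C c : BB) ∈ Ik 6 6 ↔ c = 0 := by
  constructor
  · intro h
    by_contra hc
    rw [Ik, MvPolynomial.mem_ideal_span_X_image] at h
    obtain ⟨i, _, hi⟩ := h 0 (by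
      rw [MvPolynomial.mem_support_iff, MvPolynomial.coeff_C, if_pos rfl]
      exact hc)
    exact hi rfl
  · rintro rfl
    rw [map_zero]
    exact Submodule.zero_mem _

/-- the only subset with seven elements -/
def t7 : Set.powersetCard (Fin 7) 7 := ⟨Finset.univ, by simp⟩

theorem eq_t7 (t : Set.powersetCard (Fin 7) 7) : t = t7 := by
  refine Subtype.ext ?_
  have h1 : t.1.card = 7 := t.2
  exact Finset.eq_univ_of_card _ (by rw [h1]; rfl)

theorem mem_of_FM {x : VV 7} (hx : x ∈ FM 7 0 ∅) : co 7 t7 x ∈ B ∅ D0 := by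
  rw [← DD_zero]
  exact hx t7

/-- the constant term of the coefficient -/
noncomputable def gl : FM 7 0 ∅ →ₗ[BB] BB ⧸ Ik 6 6 where
  toFun x := Submodule.Quotient.mk (MvPolynomial.C (c0 (co 7 t7 x.1)))
  map_add' x y := by
    have h : co 7 t7 (x.1 + y.1) = co 7 t7 x.1 + co 7 t7 y.1 := map_add (co 7 t7) x.1 y.1
    change Submodule.Quotient.mk (MvPolynomial.C (c0 (co 7 t7 (x.1 + y.1)))) = _
    rw [h, map_add, map_add]
    rfl
  map_smul' b x := by
    have h : co 7 t7 (gB b • x.1) = gB b * co 7 t7 x.1 := (co 7 t7).map_smul (gB b) x.1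
    change Submodule.Quotient.mk (MvPolynomial.C (c0 (co 7 t7 (gB b • x.1)))) = _
    rw [h, c0_mul (gB_mem b) (mem_of_FM x.2), c0_gB, RingHom.id_apply,
      ← Submodule.Quotient.mk_smul, Submodule.Quotient.eq, map_mul, smul_eq_mul, ← sub_mul]
    refine Ideal.mul_mem_right _ _ ?_
    rw [← neg_mem_iff, neg_sub]
    exact sub_C_mem b

theorem FM_le (p : ℕ) (a : ℤ) (S : Finset (Fin 6)) : FM p (a + 3) S ≤ FM p a S := by
  intro x hx
  refine FV_mono (S := S) (p := p) subset_rfl ?_ hx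
  rintro d ⟨h1, h2⟩
  refine ⟨?_, ?_⟩ <;> omega

/-- the short exact sequence ending in the residue field -/
noncomputable def SR : ShortComplex (ModuleCat.{0} BB) :=
  ShortComplex.mk (ModuleCat.ofHom (Submodule.inclusion (FM_le 7 0 ∅)))
    (ModuleCat.ofHom gl : ModuleCat.of BB (FM 7 0 ∅) ⟶ Mk 6 6) (by
      refine ModuleCat.hom_ext (LinearMap.ext (fun x => ?_))
      change Submodule.Quotient.mk (MvPolynomial.C (c0 (co 7 t7 x.1))) = 0
      have h1 : co 7 t7 x.1 ∈ B ∅ D1 := by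
        rw [← DD_three]
        exact x.2 t7
      have h2 : c0 (co 7 t7 x.1) = 0 := by
        rw [← c0_cut0]
        have : cut0 (co 7 t7 x.1) = 0 := cut0_eq_zero (S := ∅) (by simp [D1]) h1
        rw [this, map_zero]
      rw [h2, map_zero]
      rfl)

theorem SR_exact : SR.ShortExact := by
  refine { exact := (ShortComplex.moduleCat_exact_iff _).2 ?_
           mono_f := (ModuleCat.mono_iff_injective _).2 ?_
           epi_g := (ModuleCat.epi_iff_surjective _).2 ?_ }
  · intro x hx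
    have h1 : c0 (co 7 t7 x.1) = 0 :=
      (C_mem_iff _).1 ((Submodule.Quotient.mk_eq_zero _).1 hx)
    have h2 := mem_of_FM x.2
    have h3 : cut0 (co 7 t7 x.1) = 0 := by rw [cut0_eq h2, h1, zero_smul]
    have h4 := mem_of_cut0_eq_zero h2 h3
    rw [← DD_three] at h4
    exact ⟨(⟨x.1, fun t => by rw [eq_t7 t]; exact h4⟩ : FM 7 (0 + 3) ∅), rfl⟩
  · intro x y hxy
    have h1 : Submodule.inclusion (FM_le 7 0 ∅) x = Submodule.inclusion (FM_le 7 0 ∅) y := hxy
    exact Submodule.inclusion_injective _ h1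
  · intro y
    obtain ⟨b, rfl⟩ := Submodule.Quotient.mk_surjective _ y
    have h1 : co 7 t7 ((b.coeff 0 • (1 : LL)) • bb.exteriorPower 7 t7) =
        b.coeff 0 • (1 : LL) := by
      rw [map_smul]
      have : co 7 t7 (bb.exteriorPower 7 t7) = 1 := by simp [co]
      rw [this, smul_eq_mul, mul_one]
    have h2 : (b.coeff 0 • (1 : LL)) ∈ B ∅ (DD 0) := by
      rw [DD_zero]
      exact Submodule.smul_mem _ _ (one_mem_B _ ⟨le_rfl, dvd_zero _⟩)
    refine ⟨(⟨((b.coeff 0 • (1 : LL)) • bb.exteriorPower 7 t7 : ⋀[LL]^7 (Fin 7 → LL)),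
      fun t => by rw [eq_t7 t, h1]; exact h2⟩ : FM 7 0 ∅), ?_⟩
    change Submodule.Quotient.mk (MvPolynomial.C (c0 (co 7 t7
      ((b.coeff 0 • (1 : LL)) • bb.exteriorPower 7 t7)))) = _
    rw [h1, map_smul, c0_one, smul_eq_mul, mul_one]
    refine ((Submodule.Quotient.eq _).2 ?_).symm
    exact sub_C_mem b

section

variable [HasDerivedCategory.{w} (ModuleCat.{0} BB)]

theorem cw_left {W : DerivedCategory (ModuleCat.{0} BB)} {p p' : ℕ} {a a' j j' : ℤ}
    (hp : p + 1 = p') (ha : a + 1 = a') (hj : j + 1 = j') (h1 : Van W (QN (CF p' a')) j)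
    (h2 : Van W (QN (CW p' a')) j') : Van W (QN (CW p a)) j := by
  subst hp ha hj
  exact van_CW_left h1 h2

theorem cw_right {W : DerivedCategory (ModuleCat.{0} BB)} {p p' : ℕ} {a a' j j' : ℤ}
    (hp : p + 1 = p') (ha : a + 1 = a') (hj : j + 1 = j') (h1 : Van W (QN (CW p a)) j)
    (h2 : Van W (QN (CF p' a')) j') : Van W (QN (CW p' a')) j' := by
  subst hp ha hj
  exact van_CW_right h1 h2

theorem cw_mid {W : DerivedCategory (ModuleCat.{0} BB)} {p p' : ℕ} {a a' j : ℤ}
    (hp : p + 1 = p') (ha : a + 1 = a') (h1 : Van W (QN (CW p a)) j)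
    (h2 : Van W (QN (CW p' a')) j) : Van W (QN (CF p' a')) j := by
  subst hp ha
  exact van_CW_mid h1 h2

theorem van_six {a : ℤ} (ha : -5 ≤ a) (ha' : a ≤ 1) {j : ℤ} (hj : 0 < j) :
    Van (WB BB) (QN (CW 6 a)) j :=
  cw_left rfl rfl rfl (van_CF 7 (by omega) (by omega) hj) (van_CW_seven _ _)

theorem van_five {a : ℤ} (ha : -5 ≤ a) (ha' : a ≤ 0) {j : ℤ} (hj : 0 < j) :
    Van (WB BB) (QN (CW 5 a)) j :=
  cw_left rfl rfl rfl (van_CF 6 (by omega) (by omega) hj)
    (van_six (by omega) (by omega) (by omega))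

theorem van_four {a : ℤ} (ha : -5 ≤ a) (ha' : a ≤ -1) {j : ℤ} (hj : 0 < j) :
    Van (WB BB) (QN (CW 4 a)) j :=
  cw_left rfl rfl rfl (van_CF 5 (by omega) (by omega) hj)
    (van_five (by omega) (by omega) (by omega))

theorem van_four' {j : ℤ} (hj : 0 < j) : Van (WB BB) (QN (CW 4 1)) j :=
  cw_left (p' := 5) (a' := 2) rfl (by norm_num) rfl (van_CF 5 (by norm_num) (by norm_num) hj)
    ((van_CW_five _).2 (van_five (by norm_num) (by norm_num) (by omega)))

theorem van_three {j : ℤ} (hj : 0 < j) : Van (WB BB) (QN (CW 3 0)) j :=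
  cw_left (p' := 4) (a' := 1) rfl (by norm_num) rfl (van_CF 4 (by norm_num) (by norm_num) hj)
    (van_four' (by omega))

theorem not_van_two (h : ∀ j : ℤ, 0 < j → Van (WB BB) (QN (CW 2 1)) j) : False := by
  have h3 : Van (WB BB) (QN (CW 3 2)) 2 :=
    cw_right rfl (by norm_num) (by norm_num) (h 1 (by norm_num))
      (van_CF 3 (by norm_num) (by norm_num) (by norm_num))
  have h4 : Van (WB BB) (QN (CW 4 0)) 3 :=
    cw_right rfl (by norm_num) (by norm_num) ((van_CW_three _).1 h3)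
      (van_CF 4 (by norm_num) (by norm_num) (by norm_num))
  have h5 : Van (WB BB) (QN (CW 5 1)) 4 :=
    cw_right rfl (by norm_num) (by norm_num) h4
      (van_CF 5 (by norm_num) (by norm_num) (by norm_num))
  have h6 : Van (WB BB) (QN (CW 6 2)) 5 :=
    cw_right rfl (by norm_num) (by norm_num) h5
      (van_CF 6 (by norm_num) (by norm_num) (by norm_num))
  have h7 : Van (WB BB) (QN (CF 7 3)) 5 := cw_mid rfl (by norm_num) h6 (van_CW_seven _ _)
  have h8 := (van_CF_iff 7 (by norm_num) 5).1 h7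
  have h9 : Van (WB BB) (sg (ModuleCat.of BB (FM 7 0 ∅))) 6 := by
    have := projective_FM 7 (a := 0) (by norm_num)
    exact van_sg_of_projective _ 6 (by norm_num)
  have h10 : Van (WB BB) (sg (Mk 6 6)) ((6 : ℕ) : ℤ) :=
    van_single_ses SR_exact (j := 5) (by norm_num) h8 h9
  exact ext_ne 6 ((van_sg_iff _ 6).1 h10)

end

end Pool.Agent.Hhelper18.DR
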