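import Mathlib
import Pool.Agent.Hhelper18.DB.Public
import Pool.Agent.Hhelper18.DB.Cech

/-! The Du Bois complexes as complexes of `A`-modules, and pre-`m`-rational singularities. -/

namespace Pool.Agent.Hhelper18.Hyper

open AlgebraicGeometry CategoryTheory

theorem pull_smul {R S : Alg} (f : R.carrier →ₐ[ℂ] S.carrier) (p : ℕ) (r : R.carrier)
    (ω : Forms R p) : pull f p (r • ω) = f r • pull f p ω := by
  rw [pull_eq, pull_eq]
  exact DuBois.Forms.map_smul f r ω

theorem pull_comp {R S T : Alg} (g : S.carrier →ₐ[ℂ] T.carrier)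
    (f : R.carrier →ₐ[ℂ] S.carrier) (p : ℕ) (ω : Forms R p) :
    pull (g.comp f) p ω = pull g p (pull f p ω) := by
  rw [pull_eq, pull_eq g, pull_eq f]
  exact DuBois.Forms.map_comp g f ω

section Sections

variable {A : Type} [CommRing A] {X' : Scheme.{0}} (π : X' ⟶ Spec (CommRingCat.of A))

theorem Sec.res_res {V W T : X'.Opens} (h : W ≤ V) (h' : T ≤ W) (x : Sec π V) :
    Sec.res π h' (Sec.res π h x) = Sec.res π (h'.trans h) x := by
  change (X'.presheaf.map (homOfLE h).op ≫ X'.presheaf.map (homOfLE h').op).hom x = _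
  rw [← X'.presheaf.map_comp]
  rfl

variable [Algebra ℂ A]

theorem Sec.resAlg_comp {V W T : X'.Opens} (h : W ≤ V) (h' : T ≤ W) :
    (Sec.resAlg π h').comp (Sec.resAlg π h) = Sec.resAlg π (h'.trans h) :=
  AlgHom.ext (fun x => Sec.res_res π h h' x)

variable (J : Ideal A)

theorem SecE.resAlg_comp {V W T : X'.Opens} (h : W ≤ V) (h' : T ≤ W) :
    (SecE.resAlg π J h').comp (SecE.resAlg π J h) = SecE.resAlg π J (h'.trans h) := by
  refine AlgHom.ext (fun x => ?_)
  obtain ⟨x, rfl⟩ := Ideal.Quotient.mk_surjective x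
  exact congrArg (Ideal.Quotient.mk (idealE π J T)) (Sec.res_res π h h' x)

end Sections

/-! ### Complexes of modules -/

/-- Complexes of `B`-modules in degrees `≥ 0`. -/
abbrev Cpx (B : Type) [CommRing B] : Type 1 := CochainComplex (ModuleCat.{0} B) ℕ

/-- Restriction of scalars along `g : B → A`. -/
noncomputable def Cpx.restr {A B : Type} [CommRing A] [CommRing B] (K : Cpx A) (g : B →+* A) :
    Cpx B :=
  ((ModuleCat.restrictScalars g).mapHomologicalComplex (ComplexShape.up ℕ)).obj K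

/-- `Ext_B^j(K, B) = Hom_{D(B)}(K, B[j])`, where `D(B)` is the derived category of the category of
`B`-modules. -/
noncomputable def ExtD {B : Type} [CommRing B] (K : Cpx B) (j : ℤ) : Type 1 :=
  letI : HasDerivedCategory.{1} (ModuleCat.{0} B) := HasDerivedCategory.standard _
  DerivedCategory.Q.obj (K.extend ComplexShape.embeddingUpNat) ⟶
    ((DerivedCategory.singleFunctor (ModuleCat.{0} B) 0).obj (ModuleCat.of B B))⟦j⟧

namespace Square

variable {A : Type} [CommRing A] [Algebra ℂ A] (Q : Square A)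

/-! ### `A`-module structures -/

/-- The structure map from `A` to the functions on `U_s`. -/
noncomputable def homX {n : ℕ} (s : Fin (n + 1) → Q.ι) : A →+* (Q.OX s).carrier :=
  Sec.hom Q.π (Q.inter s)

/-- The structure map from `A` to the functions on `E ∩ U_s`. -/
noncomputable def homE {n : ℕ} (s : Fin (n + 1) → Q.ι) : A →+* (Q.OE s).carrier :=
  (SecE.mkAlg Q.π Q.J (Q.inter s)).toRingHom.comp (Sec.hom Q.π (Q.inter s))

/-- The structure map from `A` to the functions on `Z`. -/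
def homZ : A →+* Q.OZ.carrier := Ideal.Quotient.mk Q.J

noncomputable instance moduleX {n : ℕ} (s : Fin (n + 1) → Q.ι) (p : ℕ) :
    Module A (Forms (Q.OX s) p) := Module.compHom _ (Q.homX s)

noncomputable instance moduleE {n : ℕ} (s : Fin (n + 1) → Q.ι) (p : ℕ) :
    Module A (Forms (Q.OE s) p) := Module.compHom _ (Q.homE s)

noncomputable instance moduleZ (p : ℕ) : Module A (Forms Q.OZ p) := Module.compHom _ Q.homZ

/-! ### Linearity of the maps -/

variable (p : ℕ)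

theorem rX_smul {n : ℕ} (s : Fin (n + 2) → Q.ι) (k : Fin (n + 2)) (a : A)
    (ω : Forms (Q.OX (Q.face s k)) p) : Q.rX p s k (a • ω) = a • Q.rX p s k ω := by
  have h := pull_smul (R := Q.OX (Q.face s k)) (S := Q.OX s)
    (Sec.resAlg Q.π (Q.inter_le s k)) p (Q.homX (Q.face s k) a) ω
  have h2 : (Sec.resAlg Q.π (Q.inter_le s k)) (Q.homX (Q.face s k) a) = Q.homX s a :=
    Sec.res_hom Q.π (Q.inter_le s k) a
  exact h.trans (congrArg (fun r : (Q.OX s).carrier => r • Q.rX p s k ω) h2)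

theorem rE_smul {n : ℕ} (s : Fin (n + 2) → Q.ι) (k : Fin (n + 2)) (a : A)
    (ω : Forms (Q.OE (Q.face s k)) p) : Q.rE p s k (a • ω) = a • Q.rE p s k ω := by
  have h := pull_smul (R := Q.OE (Q.face s k)) (S := Q.OE s)
    (SecE.resAlg Q.π Q.J (Q.inter_le s k)) p (Q.homE (Q.face s k) a) ω
  have h2 : (SecE.resAlg Q.π Q.J (Q.inter_le s k)) (Q.homE (Q.face s k) a) = Q.homE s a :=
    congrArg (Ideal.Quotient.mk (idealE Q.π Q.J (Q.inter s)))
      (Sec.res_hom Q.π (Q.inter_le s k) a)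
  exact h.trans (congrArg (fun r : (Q.OE s).carrier => r • Q.rE p s k ω) h2)

theorem toE_smul {n : ℕ} (s : Fin (n + 1) → Q.ι) (a : A) (ω : Forms (Q.OX s) p) :
    Q.toE p s (a • ω) = a • Q.toE p s ω :=
  pull_smul (R := Q.OX s) (S := Q.OE s) (SecE.mkAlg Q.π Q.J (Q.inter s)) p (Q.homX s a) ω

theorem ofZ_smul {n : ℕ} (s : Fin (n + 1) → Q.ι) (a : A) (ω : Forms Q.OZ p) :
    Q.ofZ p s (a • ω) = a • Q.ofZ p s ω :=
  pull_smul (R := Q.OZ) (S := Q.OE s) (SecE.pullAlg Q.π Q.J (Q.inter s)) p (Q.homZ a) ω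

/-- The Čech differential for `X'`, as an `A`-linear map. -/
noncomputable def dXL (n : ℕ) : Q.CX p n →ₗ[A] Q.CX p (n + 1) where
  toFun := Q.dX p n
  map_add' φ ψ := by
    funext s
    refine Eq.trans (Finset.sum_congr rfl (fun k _ => ?_)) Finset.sum_add_distrib
    exact (congrArg (fun ω => (-1 : ℤ) ^ (k : ℕ) • ω) (map_add (Q.rX p s k)
      (φ (Q.face s k)) (ψ (Q.face s k)))).trans (smul_add _ _ _)
  map_smul' a φ := by
    funext s
    rw [RingHom.id_apply, Pi.smul_apply]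
    refine Eq.trans (Finset.sum_congr rfl (fun k _ => ?_)) Finset.smul_sum.symm
    exact (congrArg (fun ω => (-1 : ℤ) ^ (k : ℕ) • ω) (Q.rX_smul p s k a
      (φ (Q.face s k)))).trans (smul_comm _ _ _)

/-- The Čech differential for `E`, as an `A`-linear map. -/
noncomputable def dEL (n : ℕ) : Q.CE p n →ₗ[A] Q.CE p (n + 1) where
  toFun := Q.dE p n
  map_add' φ ψ := by
    funext s
    refine Eq.trans (Finset.sum_congr rfl (fun k _ => ?_)) Finset.sum_add_distrib
    exact (congrArg (fun ω => (-1 : ℤ) ^ (k : ℕ) • ω) (map_add (Q.rE p s k)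
      (φ (Q.face s k)) (ψ (Q.face s k)))).trans (smul_add _ _ _)
  map_smul' a φ := by
    funext s
    rw [RingHom.id_apply, Pi.smul_apply]
    refine Eq.trans (Finset.sum_congr rfl (fun k _ => ?_)) Finset.smul_sum.symm
    exact (congrArg (fun ω => (-1 : ℤ) ^ (k : ℕ) • ω) (Q.rE_smul p s k a
      (φ (Q.face s k)))).trans (smul_comm _ _ _)

/-- Restriction of cochains from `X'` to `E`, as an `A`-linear map. -/
noncomputable def resEL (n : ℕ) : Q.CX p n →ₗ[A] Q.CE p n where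
  toFun := Q.resE p n
  map_add' φ ψ := funext (fun s => map_add (Q.toE p s) (φ s) (ψ s))
  map_smul' a φ := funext (fun s => Q.toE_smul p s a (φ s))

/-- Pull-back of forms from `Z` to `E`, as an `A`-linear map. -/
noncomputable def pullZL : Forms Q.OZ p →ₗ[A] Q.CE p 0 where
  toFun := Q.pullZ p
  map_add' ω ω' := funext (fun s => map_add (Q.ofZ p s) ω ω')
  map_smul' a ω := funext (fun s => Q.ofZ_smul p s a ω)

/-! ### The differential has square zero -/

/-- Pull-back of forms from `U_t` to `U_s ⊆ U_t`. -/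
noncomputable def resX {m n : ℕ} (t : Fin (m + 1) → Q.ι) (s : Fin (n + 1) → Q.ι)
    (h : Q.inter s ≤ Q.inter t) : Forms (Q.OX t) p →+ Forms (Q.OX s) p :=
  pull (Sec.resAlg Q.π h) p

/-- Pull-back of forms from `E ∩ U_t` to `E ∩ U_s ⊆ E ∩ U_t`. -/
noncomputable def resE' {m n : ℕ} (t : Fin (m + 1) → Q.ι) (s : Fin (n + 1) → Q.ι)
    (h : Q.inter s ≤ Q.inter t) : Forms (Q.OE t) p →+ Forms (Q.OE s) p :=
  pull (SecE.resAlg Q.π Q.J h) p

theorem rX_resX {m n : ℕ} (t : Fin (m + 1) → Q.ι) (s : Fin (n + 2) → Q.ι) (k : Fin (n + 2))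
    (h : Q.inter (Q.face s k) ≤ Q.inter t) (ω : Forms (Q.OX t) p) :
    Q.rX p s k (Q.resX p t (Q.face s k) h ω) = Q.resX p t s ((Q.inter_le s k).trans h) ω := by
  refine (pull_comp (R := Q.OX t) (S := Q.OX (Q.face s k)) (T := Q.OX s)
    (Sec.resAlg Q.π (Q.inter_le s k)) (Sec.resAlg Q.π h) p ω).symm.trans ?_
  exact congrArg (fun f => pull (R := Q.OX t) (S := Q.OX s) f p ω)
    (Sec.resAlg_comp Q.π h (Q.inter_le s k))

theorem rE_resE {m n : ℕ} (t : Fin (m + 1) → Q.ι) (s : Fin (n + 2) → Q.ι) (k : Fin (n + 2))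
    (h : Q.inter (Q.face s k) ≤ Q.inter t) (ω : Forms (Q.OE t) p) :
    Q.rE p s k (Q.resE' p t (Q.face s k) h ω) = Q.resE' p t s ((Q.inter_le s k).trans h) ω := by
  refine (pull_comp (R := Q.OE t) (S := Q.OE (Q.face s k)) (T := Q.OE s)
    (SecE.resAlg Q.π Q.J (Q.inter_le s k)) (SecE.resAlg Q.π Q.J h) p ω).symm.trans ?_
  exact congrArg (fun f => pull (R := Q.OE t) (S := Q.OE s) f p ω)
    (SecE.resAlg_comp Q.π Q.J h (Q.inter_le s k))

theorem dX_dX {n : ℕ} (φ : Q.CX p n) : Q.dX p (n + 1) (Q.dX p n φ) = 0 := by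
  classical
  funext s
  let G : (Fin (n + 1) → Q.ι) → Forms (Q.OX s) p := fun t =>
    if h : Q.inter s ≤ Q.inter t then Q.resX p t s h (φ t) else 0
  have h1 := congrFun (DB.cd_cd n G) s
  refine Eq.trans ?_ h1
  refine Finset.sum_congr rfl (fun i _ => ?_)
  refine congrArg (fun ω => (-1 : ℤ) ^ (i : ℕ) • ω) ?_
  refine (map_sum (Q.rX p s i) _ _).trans ?_
  refine Finset.sum_congr rfl (fun j _ => ?_)
  refine (map_zsmul (Q.rX p s i) _ _).trans ?_
  refine congrArg (fun ω => (-1 : ℤ) ^ (j : ℕ) • ω) ?_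
  have h2 : Q.inter s ≤ Q.inter (Q.face (Q.face s i) j) :=
    (Q.inter_le s i).trans (Q.inter_le (Q.face s i) j)
  have h3 : G (Q.face (Q.face s i) j) =
      Q.resX p (Q.face (Q.face s i) j) s h2 (φ (Q.face (Q.face s i) j)) := dif_pos h2
  exact (Q.rX_resX p (Q.face (Q.face s i) j) s i (Q.inter_le _ j)
    (φ (Q.face (Q.face s i) j))).trans h3.symm

theorem dE_dE {n : ℕ} (φ : Q.CE p n) : Q.dE p (n + 1) (Q.dE p n φ) = 0 := by
  classical
  funext s
  let G : (Fin (n + 1) → Q.ι) → Forms (Q.OE s) p := fun t =>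
    if h : Q.inter s ≤ Q.inter t then Q.resE' p t s h (φ t) else 0
  have h1 := congrFun (DB.cd_cd n G) s
  refine Eq.trans ?_ h1
  refine Finset.sum_congr rfl (fun i _ => ?_)
  refine congrArg (fun ω => (-1 : ℤ) ^ (i : ℕ) • ω) ?_
  refine (map_sum (Q.rE p s i) _ _).trans ?_
  refine Finset.sum_congr rfl (fun j _ => ?_)
  refine (map_zsmul (Q.rE p s i) _ _).trans ?_
  refine congrArg (fun ω => (-1 : ℤ) ^ (j : ℕ) • ω) ?_
  have h2 : Q.inter s ≤ Q.inter (Q.face (Q.face s i) j) :=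
    (Q.inter_le s i).trans (Q.inter_le (Q.face s i) j)
  have h3 : G (Q.face (Q.face s i) j) =
      Q.resE' p (Q.face (Q.face s i) j) s h2 (φ (Q.face (Q.face s i) j)) := dif_pos h2
  exact (Q.rE_resE p (Q.face (Q.face s i) j) s i (Q.inter_le _ j)
    (φ (Q.face (Q.face s i) j))).trans h3.symm

theorem resE_dX {n : ℕ} (φ : Q.CX p n) : Q.resE p (n + 1) (Q.dX p n φ) =
    Q.dE p n (Q.resE p n φ) := by
  funext s
  refine (map_sum (Q.toE p s) _ _).trans ?_
  refine Finset.sum_congr rfl (fun k _ => ?_)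
  refine (map_zsmul (Q.toE p s) _ _).trans ?_
  refine congrArg (fun ω => (-1 : ℤ) ^ (k : ℕ) • ω) ?_
  have h0 : (SecE.mkAlg Q.π Q.J (Q.inter s)).comp (Sec.resAlg Q.π (Q.inter_le s k)) =
      (SecE.resAlg Q.π Q.J (Q.inter_le s k)).comp
        (SecE.mkAlg Q.π Q.J (Q.inter (Q.face s k))) := AlgHom.ext (fun _ => rfl)
  have h1 := pull_comp (R := Q.OX (Q.face s k)) (S := Q.OX s) (T := Q.OE s)
    (SecE.mkAlg Q.π Q.J (Q.inter s)) (Sec.resAlg Q.π (Q.inter_le s k)) p
      (φ (Q.face s k))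
  have h2 := pull_comp (R := Q.OX (Q.face s k)) (S := Q.OE (Q.face s k)) (T := Q.OE s)
    (SecE.resAlg Q.π Q.J (Q.inter_le s k))
      (SecE.mkAlg Q.π Q.J (Q.inter (Q.face s k))) p (φ (Q.face s k))
  have h3 := congrArg (fun f => pull (R := Q.OX (Q.face s k)) (S := Q.OE s) f p
    (φ (Q.face s k))) h0
  exact h1.symm.trans (h3.trans h2)

theorem dE_pullZ (ω : Forms Q.OZ p) : Q.dE p 0 (Q.pullZ p ω) = 0 := by
  funext s
  have h : ∀ k : Fin 2, Q.rE p s k (Q.ofZ p (Q.face s k) ω) = Q.ofZ p s ω := by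
    intro k
    have h0 : (SecE.resAlg Q.π Q.J (Q.inter_le s k)).comp
        (SecE.pullAlg Q.π Q.J (Q.inter (Q.face s k))) = SecE.pullAlg Q.π Q.J (Q.inter s) := by
      refine AlgHom.ext (fun x => ?_)
      obtain ⟨x, rfl⟩ := Ideal.Quotient.mk_surjective x
      exact congrArg (Ideal.Quotient.mk (idealE Q.π Q.J (Q.inter s)))
        (Sec.res_hom Q.π (Q.inter_le s k) x)
    refine (pull_comp (R := Q.OZ) (S := Q.OE (Q.face s k)) (T := Q.OE s)
      (SecE.resAlg Q.π Q.J (Q.inter_le s k))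
      (SecE.pullAlg Q.π Q.J (Q.inter (Q.face s k))) p ω).symm.trans ?_
    exact congrArg (fun f => pull (R := Q.OZ) (S := Q.OE s) f p ω) h0
  have h1 : Q.dE p 0 (Q.pullZ p ω) s = ∑ k : Fin 2, (-1 : ℤ) ^ (k : ℕ) • Q.ofZ p s ω :=
    Finset.sum_congr rfl (fun k _ => congrArg (fun ω => (-1 : ℤ) ^ (k : ℕ) • ω) (h k))
  rw [h1, Fin.sum_univ_two]
  simp

/-! ### The complex `K` -/

/-- Addition of cochains. -/
noncomputable abbrev addCX (n : ℕ) : AddCommGroup (Q.CX p n) := Pi.addCommGroup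

/-- Addition of cochains. -/
noncomputable abbrev addCE (n : ℕ) : AddCommGroup (Q.CE p n) := Pi.addCommGroup

/-- Addition on `K`. -/
noncomputable instance addCommGroupK : ∀ n : ℕ, AddCommGroup (Q.K p n)
  | 0 => @Prod.instAddCommGroup (Q.CX p 0) (Forms Q.OZ p) (Q.addCX p 0) _
  | n + 1 => @Prod.instAddCommGroup (Q.CX p (n + 1)) (Q.CE p n) (Q.addCX p (n + 1)) (Q.addCE p n)

/-- The action of `A` on cochains. -/
noncomputable abbrev modCX (n : ℕ) : @Module A (Q.CX p n) _ (Q.addCX p n).toAddCommMonoid :=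
  Pi.module _ _ _

/-- The action of `A` on cochains. -/
noncomputable abbrev modCE (n : ℕ) : @Module A (Q.CE p n) _ (Q.addCE p n).toAddCommMonoid :=
  Pi.module _ _ _

/-- The action of `A` on `K`. -/
noncomputable instance moduleK : ∀ n : ℕ, Module A (Q.K p n)
  | 0 => @Prod.instModule A (Q.CX p 0) (Forms Q.OZ p) _ _ _ (Q.modCX p 0) _
  | n + 1 => @Prod.instModule A (Q.CX p (n + 1)) (Q.CE p n) _ _ _ (Q.modCX p (n + 1)) (Q.modCE p n)

theorem exists_dL (n : ℕ) : ∃ f : Q.K p n →ₗ[A] Q.K p (n + 1), ⇑f = Q.d p n := by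
  cases n with
  | zero => exact
    ⟨{ toFun := Q.d p 0
       map_add' := fun x y => Prod.ext ((Q.dXL p 0).map_add x.1 y.1)
         (((Q.resEL p 0).comp (LinearMap.fst A _ _) -
           (Q.pullZL p).comp (LinearMap.snd A (Q.CX p 0) _)).map_add x y)
       map_smul' := fun a x => Prod.ext ((Q.dXL p 0).map_smul a x.1)
         (((Q.resEL p 0).comp (LinearMap.fst A _ _) -
           (Q.pullZL p).comp (LinearMap.snd A (Q.CX p 0) _)).map_smul a x) }, rfl⟩
  | succ n => exact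
    ⟨{ toFun := Q.d p (n + 1)
       map_add' := fun x y => Prod.ext ((Q.dXL p (n + 1)).map_add x.1 y.1)
         (((Q.resEL p (n + 1)).comp (LinearMap.fst A _ _) -
           (Q.dEL p n).comp (LinearMap.snd A (Q.CX p (n + 1)) _)).map_add x y)
       map_smul' := fun a x => Prod.ext ((Q.dXL p (n + 1)).map_smul a x.1)
         (((Q.resEL p (n + 1)).comp (LinearMap.fst A _ _) -
           (Q.dEL p n).comp (LinearMap.snd A (Q.CX p (n + 1)) _)).map_smul a x) }, rfl⟩

/-- The differential of `K` as an `A`-linear map: the linear map whose underlying map is `d`. -/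
noncomputable def dL (n : ℕ) : Q.K p n →ₗ[A] Q.K p (n + 1) := (Q.exists_dL p n).choose

theorem dL_apply (n : ℕ) (x : Q.K p n) : Q.dL p n x = Q.d p n x :=
  congrFun (Q.exists_dL p n).choose_spec x

theorem d_d (n : ℕ) (x : Q.K p n) : Q.d p (n + 1) (Q.d p n x) = 0 := by
  cases n with
  | zero =>
    refine Prod.ext (Q.dX_dX p x.1) ?_
    change Q.resEL p 1 (Q.dX p 0 x.1) - Q.dEL p 0 (Q.resE p 0 x.1 - Q.pullZ p x.2) = 0
    rw [map_sub]
    change Q.resE p 1 (Q.dX p 0 x.1) - (Q.dE p 0 (Q.resE p 0 x.1) -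
      Q.dE p 0 (Q.pullZ p x.2)) = 0
    rw [Q.resE_dX, Q.dE_pullZ, sub_zero, sub_self]
  | succ n =>
    refine Prod.ext (Q.dX_dX p x.1) ?_
    change Q.resEL p (n + 2) (Q.dX p (n + 1) x.1) -
      Q.dEL p (n + 1) (Q.resE p (n + 1) x.1 - Q.dE p n x.2) = 0
    rw [map_sub]
    change Q.resE p (n + 2) (Q.dX p (n + 1) x.1) - (Q.dE p (n + 1) (Q.resE p (n + 1) x.1) -
      Q.dE p (n + 1) (Q.dE p n x.2)) = 0
    rw [Q.resE_dX, Q.dE_dE, sub_zero, sub_self]

/-- The terms of `K` as `A`-modules. -/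
noncomputable def KM (n : ℕ) : ModuleCat.{0} A := ModuleCat.of A (Q.K p n)

/-- The differential of `K` as a morphism of `A`-modules. -/
noncomputable def dM (n : ℕ) : Q.KM p n ⟶ Q.KM p (n + 1) := ModuleCat.ofHom (Q.dL p n)

theorem dM_dM (n : ℕ) : Q.dM p n ≫ Q.dM p (n + 1) = 0 := by
  have h : ∀ x : Q.K p n, Q.dL p (n + 1) (Q.dL p n x) = 0 := fun x => by
    rw [dL_apply, dL_apply]
    exact Q.d_d p n x
  exact ModuleCat.hom_ext (LinearMap.ext h)

/-- The complex `K` of `A`-modules: it represents the `p`-th Du Bois complex of `X = Spec A`. -/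
noncomputable def complex : Cpx A := CochainComplex.of (Q.KM p) (Q.dM p) (Q.dM_dM p)

/-! ### Duality -/

variable {N : ℕ} (g : MvPolynomial (Fin N) ℂ →ₐ[ℂ] A)

/-- The cohomology `H^i(𝔻_X(K))` of the dual of the `p`-th Du Bois complex of `X = Spec A`, where
`n = dim X`, computed through a finite homomorphism `g : B = ℂ[y₁, …, y_N] → A`: by duality for
the finite morphism `X → 𝔸^N` one has `ω_X^• = RHom_B(A, B[N])`, so that
`𝔻_X(K) = RHom_A(K, ω_X^•)[-n] = RHom_B(K, B[N])[-n]` and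
`H^i(𝔻_X(K)) = Hom_{D(B)}(K, B[N - n + i]) = Ext_B^{N - n + i}(K, B)`. -/
noncomputable def HDual (n : ℕ) (i : ℤ) : Type 1 :=
  ExtD ((Q.complex p).restr g.toRingHom) (N - n + i)

/-- `X` (of dimension `n`) is pre-`m`-rational: `H^i(𝔻_X(Ω^{n-p}_X)) = 0` for all `p ≤ m` and
all `i > 0`. -/
def IsPreRational (n m : ℕ) : Prop :=
  ∀ p q : ℕ, p ≤ m → p + q = n → ∀ i : ℤ, 0 < i → Subsingleton (Q.HDual q g n i)

end Square

end Pool.Agent.Hhelper18.Hyper
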