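import Mathlib
import Pool.Agent.Hhelper18.DR.Public
import Pool.Agent.Hhelper18.DR.Cpx

/-! The subcomplex of forms on `X'` vanishing on `E`. -/

namespace Pool.Agent.Hhelper18.DR

open CategoryTheory CategoryTheory.Limits HomologicalComplex Pool.Agent.Hhelper18.Hyper

universe w

section

variable {A : Type} [CommRing A] [Algebra ℂ A] (Q : Square A) (q : ℕ)

/-- cochains vanishing on `E` -/
noncomputable def Nsub (n : ℕ) : Submodule A (Q.CX q n) := LinearMap.ker (Q.resEL q n)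

theorem mem_Nsub {n : ℕ} (φ : Q.CX q n) : φ ∈ Nsub Q q n ↔ Q.resE q n φ = 0 := Iff.rfl

theorem dX_mem_Nsub {n : ℕ} {φ : Q.CX q n} (h : φ ∈ Nsub Q q n) :
    Q.dXL q n φ ∈ Nsub Q q (n + 1) := by
  change Q.resE q (n + 1) (Q.dX q n φ) = 0
  rw [Q.resE_dX, (mem_Nsub Q q φ).1 h]
  exact map_zero (Q.dEL q n)

/-- the differential on cochains vanishing on `E` -/
noncomputable def dN (n : ℕ) : Nsub Q q n →ₗ[A] Nsub Q q (n + 1) :=
  (Q.dXL q n).restrict (fun _ h => dX_mem_Nsub Q q h)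

/-- the complex of cochains vanishing on `E` -/
noncomputable def NA : CochainComplex (ModuleCat.{0} A) ℕ :=
  CochainComplex.of (fun n => ModuleCat.of A (Nsub Q q n)) (fun n => ModuleCat.ofHom (dN Q q n))
    (fun n => ModuleCat.hom_ext (LinearMap.ext (fun x => Subtype.ext (Q.dX_dX q x.1))))

theorem NA_d (n : ℕ) : (NA Q q).d n (n + 1) = ModuleCat.ofHom (dN Q q n) :=
  CochainComplex.of_d (fun n => ModuleCat.of A (Nsub Q q n))
    (fun n => ModuleCat.ofHom (dN Q q n)) n

theorem complex_d (n : ℕ) : (Q.complex q).d n (n + 1) = ModuleCat.ofHom (Q.dL q n) :=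
  CochainComplex.of_d (fun n => ModuleCat.of A (Q.K q n))
    (fun n => ModuleCat.ofHom (Q.dL q n)) n

/-- inclusion of the first factor -/
noncomputable def inK : ∀ n : ℕ, Q.CX q n →ₗ[A] Q.K q n
  | 0 => LinearMap.inl A (Q.CX q 0) (Hyper.Forms Q.OZ q)
  | n + 1 => LinearMap.inl A (Q.CX q (n + 1)) (Q.CE q n)

theorem d_inK (n : ℕ) (φ : Q.CX q n) : Q.d q n (inK Q q n φ) = (Q.dX q n φ, Q.resE q n φ) := by
  cases n with
  | zero =>
    change (Q.dX q 0 φ, Q.resE q 0 φ - Q.pullZL q 0) = _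
    rw [map_zero, sub_zero]
  | succ n =>
    change (Q.dX q (n + 1) φ, Q.resE q (n + 1) φ - Q.dEL q n 0) = _
    rw [map_zero, sub_zero]

theorem inK_injective (n : ℕ) : Function.Injective (inK Q q n) := by
  cases n with
  | zero => exact LinearMap.inl_injective
  | succ n => exact LinearMap.inl_injective

/-- inclusion of the subcomplex -/
noncomputable def inclN : NA Q q ⟶ Q.complex q :=
  CochainComplex.ofHom
    (fun n => ModuleCat.ofHom (X := Nsub Q q n) (Y := Q.K q n)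
      ((inK Q q n).comp (Nsub Q q n).subtype))
    (fun n => by
      rw [NA_d, complex_d]
      refine ModuleCat.hom_ext (LinearMap.ext (fun x => ?_))
      change Q.dL q n (inK Q q n x.1) = inK Q q (n + 1) (Q.dX q n x.1)
      rw [Q.dL_apply, d_inK, (mem_Nsub Q q x.1).1 x.2]
      rfl)

variable {B : Type} [CommRing B] (g : B →+* A)

/-- restriction of scalars for complexes -/
noncomputable abbrev res : CochainComplex (ModuleCat.{0} A) ℕ ⥤ CochainComplex (ModuleCat.{0} B) ℕ :=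
  (ModuleCat.restrictScalars g).mapHomologicalComplex (ComplexShape.up ℕ)

theorem QI_inclN (hsurj : ∀ n (ψ : Q.CE q n), ∃ φ, Q.resE q n φ = ψ)
    (hZ : Subsingleton (Hyper.Forms Q.OZ q)) : QI ((res g).map (inclN Q q)) := by
  have hd : ∀ n (x : Q.K q n), ((res g).obj (Q.complex q)).d n (n + 1) x = Q.d q n x := by
    intro n x
    change (Q.complex q).d n (n + 1) x = Q.d q n x
    rw [complex_d]
    exact Q.dL_apply q n x
  refine ⟨?_, ?_, ?_⟩
  · intro n x y hxy
    exact Subtype.ext (inK_injective Q q n hxy)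
  · intro z w hw
    have h1 : Q.d q 0 z = inK Q q 1 w.1 := (hd 0 z).symm.trans hw
    have h2 : Q.resE q 0 z.1 - Q.pullZ q z.2 = 0 := congrArg Prod.snd h1
    have h3 : z.2 = 0 := hZ.elim _ _
    have h4 : Q.pullZ q z.2 = 0 := by
      rw [h3]
      exact map_zero (Q.pullZL q)
    rw [h4, sub_zero] at h2
    exact ⟨(⟨z.1, h2⟩ : Nsub Q q 0), Prod.ext rfl h3.symm⟩
  · intro n z w hw
    have h1 : Q.d q (n + 1) z = inK Q q (n + 2) w.1 := (hd (n + 1) z).symm.trans hw
    have h2 : Q.resE q (n + 1) z.1 - Q.dE q n z.2 = 0 := congrArg Prod.snd h1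
    obtain ⟨ψ', hψ'⟩ := hsurj n z.2
    have h3 : Q.resE q (n + 1) (z.1 - Q.dX q n ψ') = 0 := by
      have h4 : Q.resE q (n + 1) (z.1 - Q.dX q n ψ') =
          Q.resE q (n + 1) z.1 - Q.resE q (n + 1) (Q.dX q n ψ') :=
        map_sub (Q.resEL q (n + 1)) _ _
      rw [h4, Q.resE_dX, hψ', h2]
    refine ⟨inK Q q n ψ', (⟨z.1 - Q.dX q n ψ', h3⟩ : Nsub Q q (n + 1)), ?_⟩
    have h5 : ((res g).obj (Q.complex q)).d n (n + 1) (inK Q q n ψ') =
        (Q.dX q n ψ', Q.resE q n ψ') := (hd n _).trans (d_inK Q q n ψ')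
    have h6 : ((Q.dX q n ψ', Q.resE q n ψ') : Q.CX q (n + 1) × Q.CE q n) +
        (z.1 - Q.dX q n ψ', 0) = z := by
      refine Prod.ext ?_ ?_
      · change Q.dX q n ψ' + (z.1 - Q.dX q n ψ') = z.1
        abel
      · change Q.resE q n ψ' + 0 = z.2
        rw [add_zero, hψ']
    refine Eq.trans ?_ h6
    rw [h5]
    rfl

end

end Pool.Agent.Hhelper18.DR
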