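import Mathlib
import Pool.Agent.Hhelper18.DR.KerComplex
import Pool.Agent.Hhelper18.DR.Chain
import Pool.Agent.Hhelper18.DB.Assemble

/-! Comparison with the Čech complexes of the lattices of forms. -/

namespace Pool.Agent.Hhelper18.DR

set_option maxHeartbeats 400000

open CategoryTheory CategoryTheory.Limits HomologicalComplex Pool.Agent.Hhelper18.DB
  Pool.Agent.Hhelper18.DuBois

universe w

section

variable {A : Type} [CommRing A] [Algebra ℂ A] {Q : Hyper.Square A} {e : Q.ι ≃ Fin 6}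
  (M : Models Q e) (q : ℕ)

/-- forms on `U_s` as elements of the Koszul complex -/
noncomputable def Xi {n : ℕ} (s : Fin (n + 1) → Q.ι) : Hyper.Forms (Q.OX s) q →+ VV (q + 1) :=
  (Theta q).comp (pj M q s)

theorem Xi_apply {n : ℕ} (s : Fin (n + 1) → Q.ι) (η : Hyper.Forms (Q.OX s) q) :
    Xi M q s η = Theta q (pj M q s η) := rfl

theorem Xi_injective {n : ℕ} (s : Fin (n + 1) → Q.ι) : Function.Injective (Xi M q s) := by
  have hs : (e ∘ s) 0 ∈ img (e ∘ s) := by simp [img]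
  intro x y hxy
  have h1 : pj M q s x = pj M q s y := Theta_injective q hxy
  have h2 := (M.model s).map_injective hs q
  have h3 : ∀ x, pj M q s x = Forms.map (M.j s) q x := fun x => Hyper.pull_eq _ _ _
  rw [h3, h3] at h1
  exact h2 h1

variable {j₀ : A →+* LL} (hj : ∀ {n : ℕ} (s : Fin (n + 1) → Q.ι) (a : A),
  M.j s (Q.homX s a) = j₀ a) {g : BB →+* A} (hg : ∀ b, j₀ (g b) = gB b)

include hj in
theorem Xi_smul {n : ℕ} (s : Fin (n + 1) → Q.ι) (a : A) (η : Hyper.Forms (Q.OX s) q) :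
    Xi M q s (a • η) = j₀ a • Xi M q s η := by
  have h1 : (show Forms LL q from pj M q s (a • η)) =
      (M.j s (Q.homX s a)) • (show Forms LL q from pj M q s η) :=
    Hyper.pull_smul (R := Q.OX s) (S := LLa) (M.j s) q (Q.homX s a) η
  rw [hj] at h1
  change Theta q (show Forms LL q from pj M q s (a • η)) = _
  rw [h1]
  exact LinearMap.map_smul (wedge dq q ∘ₗ exteriorPower.map q (LamF 0)) (j₀ a) _

theorem mem_WM_iff {a : ℤ} (ha : DD a = Sh q D1) {n : ℕ} (s : Fin (n + 1) → Q.ι)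
    (w : VV (q + 1)) :
    w ∈ WM q a (img (e ∘ s)) ↔ ∃ η : Hyper.Forms (Q.OX s) q, Q.toE q s η = 0 ∧ Xi M q s η = w := by
  constructor
  · rintro ⟨x, hx, rfl⟩
    have h1 : exteriorPower.map q piF x ∈ NV (img (e ∘ s)) q (Sh q D1) := by
      rw [← ha]
      exact ⟨x, hx, rfl⟩
    obtain ⟨η, h2, h3⟩ := (kernel_iff M q s _).1 h1
    refine ⟨η, h2, ?_⟩
    rw [Xi_apply, h3]
    exact Theta_map q x
  · rintro ⟨η, h1, rfl⟩
    obtain ⟨x, hx, h2⟩ := (kernel_iff M q s _).2 ⟨η, h1, rfl⟩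
    rw [← ha] at hx
    refine ⟨x, hx, ?_⟩
    rw [Xi_apply, ← h2]
    exact (Theta_map q x).symm

/-- the cochain with values in the Koszul complex -/
noncomputable def XiC {n : ℕ} (φ : Q.CX q n) : (Fin (n + 1) → Fin 6) → VV (q + 1) :=
  fun t => Xi M q (e.symm ∘ t) (φ (e.symm ∘ t))

theorem XiC_eq {n : ℕ} (φ : Q.CX q n) (t : Fin (n + 1) → Fin 6) :
    XiC M q φ t = Theta q (push M q φ (e.symm ∘ t)) := rfl

theorem XiC_dX {n : ℕ} (φ : Q.CX q n) : XiC M q (Q.dX q n φ) = cd n (XiC M q φ) := by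
  funext t
  rw [XiC_eq, push_dX]
  exact (congrFun (cd_map n (Theta q) (push M q φ)) (e.symm ∘ t)).symm

theorem e_comp {n : ℕ} (t : Fin (n + 1) → Fin 6) : ⇑e ∘ (e.symm ∘ t) = t := by
  funext a; simp

theorem XiC_mem {a : ℤ} (ha : DD a = Sh q D1) {n : ℕ} (φ : Q.CX q n) (hφ : φ ∈ Nsub Q q n) :
    XiC M q φ ∈ Co (WM q a) n := by
  intro t
  have h := (mem_WM_iff M q ha (e.symm ∘ t) (XiC M q φ t)).2
    ⟨φ _, congrFun ((mem_Nsub Q q φ).1 hφ) _, rfl⟩
  rwa [e_comp] at h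

/-- the comparison map -/
noncomputable def cmp {a : ℤ} (ha : DD a = Sh q D1) : (res g).obj (NA Q q) ⟶ CW q a :=
  CochainComplex.ofHom
    (fun n => ModuleCat.ofHom
      (X := (ModuleCat.restrictScalars g).obj (ModuleCat.of A (Nsub Q q n))) (Y := Co (WM q a) n)
      { toFun := fun φ => ⟨XiC M q φ.1, XiC_mem M q ha φ.1 φ.2⟩
        map_add' := fun φ ψ => Subtype.ext (funext (fun t => map_add (Xi M q (e.symm ∘ t)) _ _))
        map_smul' := fun b φ => Subtype.ext (funext (fun t => by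
          have h := Xi_smul M q hj (e.symm ∘ t) (g b) (φ.1 (e.symm ∘ t))
          rw [hg] at h
          exact h)) })
    (fun n => by
      have h1 : ((res g).obj (NA Q q)).d n (n + 1) =
          (ModuleCat.restrictScalars g).map ((NA Q q).d n (n + 1)) := rfl
      rw [h1, NA_d, cech_d_eq]
      refine ModuleCat.hom_ext (LinearMap.ext (fun φ => Subtype.ext ?_))
      exact (XiC_dX M q φ.1).symm)

theorem QI_cmp {a : ℤ} (ha : DD a = Sh q D1) : QI (cmp M q hj hg ha) := by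
  have hsurj : ∀ n (w : Co (WM q a) n), ∃ φ : Nsub Q q n, XiC M q φ.1 = w.1 := by
    intro n w
    have h1 : ∀ s : Fin (n + 1) → Q.ι, ∃ η : Hyper.Forms (Q.OX s) q, Q.toE q s η = 0 ∧
        Xi M q s η = w.1 (e ∘ s) := fun s => (mem_WM_iff M q ha s _).1 (w.2 (e ∘ s))
    choose φ hφ hφ' using h1
    refine ⟨⟨φ, funext hφ⟩, ?_⟩
    funext t
    refine (hφ' (e.symm ∘ t)).trans ?_
    rw [e_comp]
  have hinj : ∀ n (φ ψ : Nsub Q q n), XiC M q φ.1 = XiC M q ψ.1 → φ = ψ := by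
    intro n φ ψ h
    refine Subtype.ext (funext (fun s => Xi_injective M q s ?_))
    have h1 := congrFun h (e ∘ s)
    have h2 : e.symm ∘ (⇑e ∘ s) = s := by funext a; simp
    have h3 : ∀ φ : Q.CX q n, XiC M q φ (e ∘ s) = Xi M q s (φ s) := by
      intro φ
      exact congrArg (fun t => Xi M q t (φ t)) h2
    rw [h3, h3] at h1
    exact h1
  refine ⟨?_, ?_, ?_⟩
  · intro n x y hxy
    exact hinj n x y (congrArg Subtype.val hxy)
  · intro z w _
    obtain ⟨φ, hφ⟩ := hsurj 0 z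
    exact ⟨φ, Subtype.ext hφ⟩
  · intro n z w _
    obtain ⟨φ, hφ⟩ := hsurj (n + 1) z
    refine ⟨0, φ, ?_⟩
    rw [map_zero, zero_add]
    exact Subtype.ext hφ

variable [HasDerivedCategory.{w} (ModuleCat.{0} BB)] {W : DerivedCategory (ModuleCat.{0} BB)}

include hj hg in
theorem van_K_iff {a : ℤ} (ha : DD a = Sh q D1) (hZ : Subsingleton (Hyper.Forms Q.OZ q)) (j : ℤ) :
    Van W (QN ((res g).obj (Q.complex q))) j ↔ Van W (QN (CW q a)) j := by
  rw [← (QI_inclN Q q g (fun n ψ => resE_surjective q ψ) hZ).van j,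
    (QI_cmp M q hj hg ha).van j]

end

end Pool.Agent.Hhelper18.DR
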