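import Mathlib
import Pool.Agent.Hhelper18.DR.Compare
import Pool.Agent.Hhelper18.DB.Final

/-! The counterexample. -/

namespace Pool.Agent.Hhelper18.DR

set_option maxHeartbeats 400000

open CategoryTheory CategoryTheory.Limits HomologicalComplex Pool.Agent.Hhelper18.DB
  Pool.Agent.Hhelper18.DuBois

universe w

/-- the finite homomorphism `ℂ[y₀,…,y₅] → A`, `y_i ↦ x_i³` -/
noncomputable def gA : BB →ₐ[ℂ] rgr FF 0 := MvPolynomial.aeval cb

theorem j0_gA (b : BB) : j0 (gA b) = gB b := by
  have h : j0.comp gA = gB := by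
    refine MvPolynomial.algHom_ext (fun i => ?_)
    rw [AlgHom.comp_apply, gA, MvPolynomial.aeval_X, j0_cb, gB_X]
  rw [← h]
  rfl

theorem mods_j {n : ℕ} (s : Fin (n + 1) → sq.ι) (a : rgr FF 0) :
    mods.j s (sq.homX s a) = j0 a := jX_algebraMap _ (Vall_le_inter s) a

theorem finite_of_model {A : Type} [CommRing A] [Algebra ℂ A] {j : A →ₐ[ℂ] LL} (hm : Model A ∅ j)
    (g : BB →ₐ[ℂ] A) (hg : ∀ b, j (g b) = gB b) : g.toRingHom.Finite := by
  let alg : Algebra BB A := g.toRingHom.toAlgebra
  have hD : DD 0 = D0 := DD_zero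
  let f : A →ₗ[BB] BO 0 :=
    { toFun := fun a => ⟨j a, by
        change j a ∈ B ∅ (DD 0)
        rw [hD]; exact hm.mem a⟩
      map_add' := fun a b => Subtype.ext (map_add j a b)
      map_smul' := fun b a => Subtype.ext (by
        change j (g b * a) = gB b * j a
        rw [map_mul, hg]) }
  have hf : Function.Bijective f := by
    constructor
    · intro a b hab
      exact hm.inj (congrArg Subtype.val hab)
    · intro y
      obtain ⟨r, hr⟩ := hm.surj y.1 (by
        have := y.2
        change y.1 ∈ B ∅ (DD 0) at this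
        rwa [hD] at this)
      exact ⟨r, Subtype.ext hr⟩
  have := finite_BO (a := 0) (by norm_num)
  exact Module.Finite.equiv (LinearEquiv.ofBijective f hf).symm

theorem DD_eq {a : ℤ} {q : ℕ} (ha : a + q = 3) : DD a = Sh q D1 := by
  ext d
  simp only [DD, Sh, D1, Set.mem_ofPred_eq]
  omega

theorem formsZ (q : ℕ) (hq : 0 < q) : Subsingleton (Hyper.Forms sq.OZ q) :=
  forms_subsingleton (model_0.quotient_bijective mem_J0).2 hq

section

variable [HasDerivedCategory.{w} (ModuleCat.{0} BB)]

theorem van_sq_iff {a : ℤ} {q : ℕ} (ha : a + q = 3) (hq : 0 < q) (j : ℤ) :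
    Van (WB BB) (QN ((res gA.toRingHom).obj (sq.complex q))) j ↔ Van (WB BB) (QN (CW q a)) j :=
  van_K_iff mods q (j₀ := j0.toRingHom) (fun s a => mods_j s a) (g := gA.toRingHom) j0_gA
    (DD_eq ha) (formsZ q hq) j

end

theorem subsingleton_iff (q : ℕ) (i : ℤ) : Subsingleton (sq.HDual q gA 6 i) ↔
    let : HasDerivedCategory.{1} (ModuleCat.{0} BB) := HasDerivedCategory.standard _
    Van (WB BB) (QN ((res gA.toRingHom).obj (sq.complex q))) i := by
  let : HasDerivedCategory.{1} (ModuleCat.{0} BB) := HasDerivedCategory.standard _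
  have h0 : ((6 : ℕ) : ℤ) - ((6 : ℕ) : ℤ) + i = i := by ring
  have h : Subsingleton (sq.HDual q gA 6 i) ↔
      Van (WB BB) (QN ((res gA.toRingHom).obj (sq.complex q))) (((6 : ℕ) : ℤ) - ((6 : ℕ) : ℤ) + i) := by
    constructor
    · intro h f
      exact @Subsingleton.elim (sq.HDual q gA 6 i) h f
        (0 : (QN ((res gA.toRingHom).obj (sq.complex q))) ⟶
          (WB BB)⟦(((6 : ℕ) : ℤ) - ((6 : ℕ) : ℤ) + i)⟧)
    · intro h
      exact ⟨fun f g => (h f).trans (h g).symm⟩
  rw [h, h0]

theorem preRational_three : sq.IsPreRational gA 6 3 := by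
  let : HasDerivedCategory.{1} (ModuleCat.{0} BB) := HasDerivedCategory.standard _
  intro p q hp hpq i hi
  rw [subsingleton_iff]
  obtain rfl | rfl | rfl | rfl : q = 6 ∨ q = 5 ∨ q = 4 ∨ q = 3 := by omega
  · exact (van_sq_iff (a := -3) (by norm_num) (by norm_num) i).2
      (van_six (by norm_num) (by norm_num) hi)
  · exact (van_sq_iff (a := -2) (by norm_num) (by norm_num) i).2
      (van_five (by norm_num) (by norm_num) hi)
  · exact (van_sq_iff (a := -1) (by norm_num) (by norm_num) i).2
      (van_four (by norm_num) (by norm_num) hi)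
  · exact (van_sq_iff (a := 0) (by norm_num) (by norm_num) i).2 (van_three hi)

theorem not_preRational_six : ¬ sq.IsPreRational gA 6 6 := by
  let : HasDerivedCategory.{1} (ModuleCat.{0} BB) := HasDerivedCategory.standard _
  intro h
  refine not_van_two (fun j hj => ?_)
  rw [← van_sq_iff (a := 1) (q := 2) (by norm_num) (by norm_num) j]
  exact (subsingleton_iff 2 j).1 (h 4 2 (by norm_num) rfl j hj)

theorem final : ∃ (A : Type) (_ : CommRing A) (_ : Algebra ℂ A) (Q : Hyper.Square A)
    (g : MvPolynomial (Fin 6) ℂ →ₐ[ℂ] A),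
    IsDomain A ∧ IsIntegrallyClosed A ∧ Algebra.FiniteType ℂ A ∧ ringKrullDim A = 6 ∧
      g.toRingHom.Finite ∧ Q.IsPreRational g 6 3 ∧ ¬ Q.IsPreRational g 6 6 :=
  ⟨rgr FF 0, inferInstance, inferInstance, sq, gA, model_0.isDomain, model_0.normal,
    model_0.finiteType, model_0.dim, finite_of_model model_0 gA j0_gA, preRational_three, not_preRational_six⟩

end Pool.Agent.Hhelper18.DR
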